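import Mathlib

/-!
# Character sums of functions with a Hecke relation
-/

set_option autoImplicit false

open Finset DirichletCharacter

namespace Pool.Agent.K4H67.TV

/-- A function on the rational numbers with period one and with the Hecke relations for the primes
that do not divide `N`, at the points with denominator prime to `N`. -/
structure HeckeFn (N : ℕ) (α : ℕ → ℂ) (V : ℚ → ℂ) : Prop where
  per : ∀ x : ℚ, V (x + 1) = V x
  hecke : ∀ ℓ : ℕ, ℓ.Prime → ¬ ℓ ∣ N → ∀ (b : ℕ) (m : ℕ), 0 < m → m.Coprime N →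
    ∑ j ∈ range ℓ, V (((b : ℚ) / m + j) / ℓ) + V (ℓ * ((b : ℚ) / m)) = α ℓ * V ((b : ℚ) / m)
  bound : ∀ ℓ : ℕ, ℓ.Prime → ¬ ℓ ∣ N → ‖α ℓ‖ ≤ ℓ + 1

variable {N : ℕ} {α : ℕ → ℂ} {V : ℚ → ℂ}

lemma HeckeFn.per_nat (h : HeckeFn N α V) (x : ℚ) (q : ℕ) : V (x + q) = V x := by
  induction q with
  | zero => simp
  | succ q ih => push_cast; rw [← add_assoc, h.per, ih]

lemma HeckeFn.cast (h : HeckeFn N α V) (m : ℕ) [NeZero m] (b : ℕ) :
    V ((((b : ZMod m).val : ℕ) : ℚ) / m) = V ((b : ℚ) / m) := by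
  have hm : (m : ℚ) ≠ 0 := by exact_mod_cast NeZero.ne m
  rw [ZMod.val_natCast]
  conv_rhs => rw [← Nat.mod_add_div b m]
  push_cast
  rw [add_div, mul_div_cancel_left₀ _ hm, h.per_nat]

/-- The sum `∑ χ(b) V(b / m)`. -/
noncomputable def Sm (V : ℚ → ℂ) (m : ℕ) [NeZero m] (χ : DirichletCharacter ℂ m) : ℂ :=
  ∑ b : ZMod m, χ b * V ((b.val : ℚ) / m)

lemma sum_range_zmod (m : ℕ) [NeZero m] (g : ZMod m → ℂ) :
    ∑ b ∈ range m, g (b : ZMod m) = ∑ b : ZMod m, g b := by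
  refine sum_bij' (fun b _ => (b : ZMod m)) (fun b _ => b.val) ?_ ?_ ?_ ?_ ?_
  · intro b _; exact mem_univ _
  · intro b _; exact mem_range.2 (ZMod.val_lt b)
  · intro b hb; exact ZMod.val_cast_of_lt (mem_range.1 hb)
  · intro b _; exact ZMod.natCast_zmod_val b
  · intro b _; rfl

lemma Sm_range (h : HeckeFn N α V) (m : ℕ) [NeZero m] (χ : DirichletCharacter ℂ m) :
    Sm V m χ = ∑ b ∈ range m, χ (b : ZMod m) * V ((b : ℚ) / m) := by
  unfold Sm
  rw [← sum_range_zmod]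
  exact sum_congr rfl fun b _ => by rw [h.cast]

lemma sum_range_mul (ℓ m : ℕ) (g : ℕ → ℂ) :
    ∑ n ∈ range (ℓ * m), g n = ∑ b ∈ range m, ∑ j ∈ range ℓ, g (b + m * j) := by
  rw [sum_comm]
  induction ℓ with
  | zero => simp
  | succ ℓ ih =>
    rw [Nat.succ_mul, sum_range_add, ih, sum_range_succ]
    congr 1
    refine sum_congr rfl fun b _ => ?_
    congr 1
    ring

lemma sum_range_dvd {ℓ : ℕ} (hℓ : 0 < ℓ) (m : ℕ) (g : ℕ → ℂ) :
    ∑ n ∈ range (ℓ * m), (if ℓ ∣ n then g n else 0) = ∑ k ∈ range m, g (ℓ * k) := by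
  rw [← sum_filter]
  refine sum_bij' (fun n _ => n / ℓ) (fun k _ => ℓ * k) ?_ ?_ ?_ ?_ ?_
  · intro n hn
    rw [mem_filter, mem_range] at hn
    exact mem_range.2 (Nat.div_lt_of_lt_mul hn.1)
  · intro k hk
    rw [mem_filter, mem_range]
    exact ⟨Nat.mul_lt_mul_of_pos_left (mem_range.1 hk) hℓ, dvd_mul_right _ _⟩
  · intro n hn
    rw [mem_filter] at hn
    exact Nat.mul_div_cancel' hn.2
  · intro k _
    exact Nat.mul_div_cancel_left k hℓ
  · intro n hn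
    rw [mem_filter] at hn
    rw [Nat.mul_div_cancel' hn.2]

/-- The values of a character induced from level `m'` at level `ℓ m'`. -/
lemma changeLevel_nat {ℓ m' : ℕ} (hℓ : ℓ.Prime) (hm' : 0 < m') (χ' : DirichletCharacter ℂ m')
    (n : ℕ) : changeLevel (dvd_mul_left m' ℓ) χ' ((n : ℕ) : ZMod (ℓ * m')) =
      if ℓ ∣ n then 0 else χ' (n : ZMod m') := by
  have : NeZero (ℓ * m') := ⟨(Nat.mul_pos hℓ.pos hm').ne'⟩
  have : NeZero m' := ⟨hm'.ne'⟩
  split_ifs with hd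
  · apply MulChar.map_nonunit
    rw [ZMod.isUnit_iff_coprime]
    intro hc
    have := Nat.Coprime.coprime_mul_right_right hc
    have h2 : ℓ ∣ Nat.gcd n ℓ := Nat.dvd_gcd hd dvd_rfl
    rw [this] at h2
    exact hℓ.one_lt.ne' (Nat.dvd_one.1 h2)
  · by_cases hc : n.Coprime m'
    · have h1 : n.Coprime (ℓ * m') :=
        Nat.Coprime.mul_right ((Nat.Prime.coprime_iff_not_dvd hℓ).2 hd).symm hc
      have h2 := changeLevel_eq_cast_of_dvd' χ' (dvd_mul_left m' ℓ) (a := (n : ℤ))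
        (by exact_mod_cast Nat.isCoprime_iff_coprime.2 h1)
      exact_mod_cast h2
    · rw [MulChar.map_nonunit, MulChar.map_nonunit]
      · rwa [ZMod.isUnit_iff_coprime]
      · rw [ZMod.isUnit_iff_coprime]
        intro h1
        exact hc (Nat.Coprime.coprime_mul_left_right h1)

/-- The recursion for induced characters. -/
lemma Sm_step (h : HeckeFn N α V) {ℓ m' : ℕ} (hℓ : ℓ.Prime) (hℓN : ¬ ℓ ∣ N) (hmN : m'.Coprime N)
    [NeZero m'] [NeZero (ℓ * m')] (χ' : DirichletCharacter ℂ m') :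
    Sm V (ℓ * m') (changeLevel (dvd_mul_left m' ℓ) χ') =
      α ℓ * Sm V m' χ' - ∑ b ∈ range m', χ' (b : ZMod m') * V (ℓ * ((b : ℚ) / m'))
        - χ' (ℓ : ZMod m') * Sm V m' χ' := by
  have hm' : 0 < m' := NeZero.pos m'
  have hm'q : (m' : ℚ) ≠ 0 := by exact_mod_cast hm'.ne'
  have hℓq : (ℓ : ℚ) ≠ 0 := by exact_mod_cast hℓ.pos.ne'
  rw [Sm_range h, Sm_range h]
  have h1 : ∀ n ∈ range (ℓ * m'), changeLevel (dvd_mul_left m' ℓ) χ' ((n : ℕ) : ZMod (ℓ * m')) *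
      V ((n : ℚ) / ((ℓ * m' : ℕ) : ℚ)) = χ' (n : ZMod m') * V ((n : ℚ) / ((ℓ * m' : ℕ) : ℚ)) -
        (if ℓ ∣ n then χ' (n : ZMod m') * V ((n : ℚ) / ((ℓ * m' : ℕ) : ℚ)) else 0) := by
    intro n _
    rw [changeLevel_nat hℓ hm']
    split_ifs
    · ring
    · ring
  rw [sum_congr rfl h1, sum_sub_distrib, sum_range_dvd hℓ.pos, sum_range_mul]
  have h2 : ∀ b ∈ range m', ∑ j ∈ range ℓ, χ' ((b + m' * j : ℕ) : ZMod m') *
      V (((b + m' * j : ℕ) : ℚ) / ((ℓ * m' : ℕ) : ℚ)) =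
      α ℓ * (χ' (b : ZMod m') * V ((b : ℚ) / m')) -
        χ' (b : ZMod m') * V (ℓ * ((b : ℚ) / m')) := by
    intro b _
    have h3 : ∀ j ∈ range ℓ, χ' ((b + m' * j : ℕ) : ZMod m') *
        V (((b + m' * j : ℕ) : ℚ) / ((ℓ * m' : ℕ) : ℚ)) =
        χ' (b : ZMod m') * V (((b : ℚ) / m' + j) / ℓ) := by
      intro j _
      congr 2
      · push_cast
        rw [ZMod.natCast_self, zero_mul, add_zero]
      · push_cast
        field_simp
    rw [sum_congr rfl h3, ← mul_sum]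
    have h4 := h.hecke ℓ hℓ hℓN b m' hm' hmN
    rw [eq_sub_of_add_eq h4]
    ring
  rw [sum_congr rfl h2, sum_sub_distrib, ← mul_sum]
  congr 1
  rw [mul_sum]
  refine sum_congr rfl fun k _ => ?_
  push_cast
  rw [map_mul, mul_div_mul_left _ _ hℓq, mul_assoc]

/-- The twisted sum if `ℓ` does not divide the level. -/
lemma twist_coprime (h : HeckeFn N α V) {ℓ m' : ℕ} [NeZero m'] (hc : ℓ.Coprime m')
    (χ' : DirichletCharacter ℂ m') :
    ‖∑ b ∈ range m', χ' (b : ZMod m') * V (ℓ * ((b : ℚ) / m'))‖ = ‖Sm V m' χ'‖ := by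
  have hm'q : (m' : ℚ) ≠ 0 := by exact_mod_cast NeZero.ne m'
  set u : (ZMod m')ˣ := ZMod.unitOfCoprime ℓ hc with hu
  have hu' : (u : ZMod m') = (ℓ : ZMod m') := ZMod.coe_unitOfCoprime ℓ hc
  have h1 : ∑ b ∈ range m', χ' (b : ZMod m') * V (ℓ * ((b : ℚ) / m')) =
      ∑ b : ZMod m', χ' b * V ((((u : ZMod m') * b).val : ℚ) / m') := by
    rw [← sum_range_zmod]
    refine sum_congr rfl fun b _ => ?_
    rw [hu', ← Nat.cast_mul, h.cast]
    congr 2
    push_cast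
    field_simp
  have h2 : ∑ b : ZMod m', χ' b * V ((((u : ZMod m') * b).val : ℚ) / m') =
      χ' ((u⁻¹ : (ZMod m')ˣ) : ZMod m') * Sm V m' χ' := by
    unfold Sm
    rw [mul_sum, ← Equiv.sum_comp (Units.mulLeft u)
      (fun b => χ' ((u⁻¹ : (ZMod m')ˣ) : ZMod m') * (χ' b * V ((b.val : ℚ) / m')))]
    refine sum_congr rfl fun b _ => ?_
    rw [Units.mulLeft_apply, ← mul_assoc, ← map_mul, ← mul_assoc, Units.inv_mul, one_mul]
  rw [h1, h2, norm_mul, χ'.unit_norm_eq_one, one_mul]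

lemma sum_fiber {G H : Type*} [Group G] [Group H] [Fintype G] [Fintype H] [DecidableEq H]
    (f : G →* H) (hf : Function.Surjective f) (F : H → ℂ) :
    ∃ k : ℕ, k * Fintype.card H = Fintype.card G ∧ ∑ g : G, F (f g) = k * ∑ h : H, F h := by
  set k := (univ.filter (fun g => f g = 1)).card with hk
  have hcard : ∀ h : H, (univ.filter (fun g => f g = h)).card = k := by
    intro h
    exact MonoidHom.card_fiber_eq_of_mem_range f (hf h) ⟨1, map_one f⟩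
  refine ⟨k, ?_, ?_⟩
  · have h1 : ∑ h : H, (univ.filter (fun g => f g = h)).card = Fintype.card G := by
      rw [← card_univ]
      exact (card_eq_sum_card_fiberwise (fun g _ => mem_univ (f g))).symm
    rw [← h1, sum_congr rfl (fun h _ => hcard h), sum_const, card_univ, smul_eq_mul, mul_comm]
  · rw [← sum_fiberwise univ f (fun g => F (f g)), mul_sum]
    refine sum_congr rfl fun h _ => ?_
    have h1 : ∀ g ∈ univ.filter (fun g => f g = h), F (f g) = F h := by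
      intro g hg
      rw [(mem_filter.1 hg).2]
    rw [sum_congr rfl h1, sum_const, hcard, nsmul_eq_mul]

/-- The twisted sum if `ℓ` divides the level. -/
lemma twist_dvd (h : HeckeFn N α V) {ℓ m : ℕ} (hℓ : ℓ.Prime) [NeZero m] [NeZero (ℓ * m)]
    (χ : DirichletCharacter ℂ (ℓ * m)) {X : ℝ} (hX : 0 ≤ X)
    (hχ : ∀ χ₀ : DirichletCharacter ℂ m, ‖Sm V m χ₀‖ ≤ X) :
    ‖∑ b ∈ range (ℓ * m), χ (b : ZMod (ℓ * m)) * V (ℓ * ((b : ℚ) / ((ℓ * m : ℕ) : ℚ)))‖ ≤ ℓ * X := by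
  classical
  have hmq : (m : ℚ) ≠ 0 := by exact_mod_cast NeZero.ne m
  have hℓq : (ℓ : ℚ) ≠ 0 := by exact_mod_cast hℓ.pos.ne'
  have hdvd : m ∣ ℓ * m := dvd_mul_left m ℓ
  set w : ZMod m → ℂ := fun c => V ((c.val : ℚ) / m) with hw
  have h1 : ∑ b ∈ range (ℓ * m), χ (b : ZMod (ℓ * m)) * V (ℓ * ((b : ℚ) / ((ℓ * m : ℕ) : ℚ))) =
      ∑ u : (ZMod (ℓ * m))ˣ, χ (u : ZMod (ℓ * m)) * w (ZMod.unitsMap hdvd u : ZMod m) := by
    have h2 : ∀ b ∈ range (ℓ * m), χ (b : ZMod (ℓ * m)) * V (ℓ * ((b : ℚ) / ((ℓ * m : ℕ) : ℚ))) =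
        (fun c : ZMod (ℓ * m) => χ c * w (ZMod.castHom hdvd (ZMod m) c)) (b : ZMod (ℓ * m)) := by
      intro b _
      simp only [hw]
      rw [map_natCast (ZMod.castHom hdvd (ZMod m)), h.cast]
      congr 2
      push_cast
      field_simp
    rw [sum_congr rfl h2, sum_range_zmod (ℓ * m)
      (fun c : ZMod (ℓ * m) => χ c * w (ZMod.castHom hdvd (ZMod m) c))]
    symm
    refine sum_of_injOn (fun u : (ZMod (ℓ * m))ˣ => (u : ZMod (ℓ * m))) ?_ ?_ ?_ ?_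
    · intro a _ b _ hab
      exact Units.ext hab
    · intro a _
      simp
    · intro c _ hc
      have : ¬ IsUnit c := by
        rintro ⟨u, rfl⟩
        exact hc ⟨u, by simp, rfl⟩
      rw [χ.map_nonunit this, zero_mul]
    · intro u _
      rfl
  rw [h1]
  by_cases hf : FactorsThrough χ m
  · obtain ⟨_, χ₀, rfl⟩ := hf
    have h3 : ∀ u : (ZMod (ℓ * m))ˣ, changeLevel hdvd χ₀ (u : ZMod (ℓ * m)) *
        w (ZMod.unitsMap hdvd u : ZMod m) =
        (fun v : (ZMod m)ˣ => χ₀ (v : ZMod m) * w (v : ZMod m)) (ZMod.unitsMap hdvd u) := by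
      intro u
      simp only
      rw [changeLevel_eq_cast_of_dvd, ZMod.unitsMap_val]
    rw [sum_congr rfl (fun u _ => h3 u)]
    obtain ⟨k, hk1, hk2⟩ := sum_fiber (ZMod.unitsMap hdvd) (ZMod.unitsMap_surjective hdvd)
      (fun v : (ZMod m)ˣ => χ₀ (v : ZMod m) * w (v : ZMod m))
    rw [hk2]
    have h4 : ∑ v : (ZMod m)ˣ, χ₀ (v : ZMod m) * w (v : ZMod m) = Sm V m χ₀ := by
      unfold Sm
      refine sum_of_injOn (fun u : (ZMod m)ˣ => (u : ZMod m)) ?_ ?_ ?_ ?_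
      · intro a _ b _ hab
        exact Units.ext hab
      · intro a _
        simp
      · intro c _ hc
        have : ¬ IsUnit c := by
          rintro ⟨u, rfl⟩
          exact hc ⟨u, by simp, rfl⟩
        rw [χ₀.map_nonunit this, zero_mul]
      · intro u _
        rfl
    rw [h4, norm_mul, Complex.norm_natCast]
    have hkℓ : k ≤ ℓ := by
      rw [ZMod.card_units_eq_totient, ZMod.card_units_eq_totient] at hk1
      have h5 : Nat.totient (ℓ * m) ≤ ℓ * Nat.totient m := by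
        by_cases hd : ℓ ∣ m
        · rw [Nat.totient_mul_of_prime_of_dvd hℓ hd]
        · rw [Nat.totient_mul_of_prime_of_not_dvd hℓ hd]
          exact Nat.mul_le_mul_right _ (Nat.sub_le _ _)
      rw [← hk1] at h5
      exact Nat.le_of_mul_le_mul_right h5 (Nat.totient_pos.2 (NeZero.pos m))
    have hkℓ' : (k : ℝ) ≤ ℓ := by exact_mod_cast hkℓ
    exact mul_le_mul hkℓ' (hχ χ₀) (norm_nonneg _) (by positivity)
  · rw [factorsThrough_iff_ker_unitsMap hdvd] at hf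
    obtain ⟨u, hu1, hu2⟩ := SetLike.not_le_iff_exists.1 hf
    rw [MonoidHom.mem_ker] at hu1 hu2
    have hχu : χ (u : ZMod (ℓ * m)) ≠ 1 := by
      intro hc
      apply hu2
      ext
      rw [MulChar.coe_toUnitHom, hc]
      rfl
    set T := ∑ u : (ZMod (ℓ * m))ˣ, χ (u : ZMod (ℓ * m)) * w (ZMod.unitsMap hdvd u : ZMod m)
      with hT
    have h5 : T = χ (u : ZMod (ℓ * m)) * T := by
      conv_lhs => rw [hT, ← Equiv.sum_comp (Equiv.mulLeft u)]
      rw [hT, mul_sum]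
      refine sum_congr rfl fun v _ => ?_
      rw [Equiv.coe_mulLeft, map_mul, hu1, one_mul, Units.val_mul, map_mul, mul_assoc]
    have h6 : (1 - χ (u : ZMod (ℓ * m))) * T = 0 := by linear_combination h5
    rcases mul_eq_zero.1 h6 with h7 | h7
    · exact absurd (sub_eq_zero.1 h7).symm hχu
    · rw [h7, norm_zero]
      positivity

/-- A character which is not primitive is induced from level `m / ℓ` for some prime `ℓ`. -/
lemma exists_prime_level {m : ℕ} [NeZero m] (χ : DirichletCharacter ℂ m) (hχ : ¬ χ.IsPrimitive) :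
    ∃ (ℓ m' : ℕ) (_ : ℓ.Prime) (hm : m = ℓ * m') (χ' : DirichletCharacter ℂ m'),
      χ = changeLevel (hm ▸ dvd_mul_left m' ℓ) χ' := by
  obtain ⟨q, hq⟩ := conductor_dvd_level χ
  have hq1 : q ≠ 1 := by
    rintro rfl
    rw [mul_one] at hq
    exact hχ hq.symm
  obtain ⟨ℓ, hℓ, hℓq⟩ := Nat.exists_prime_and_dvd hq1
  obtain ⟨r, hr⟩ := hℓq
  have hm : m = ℓ * (χ.conductor * r) := by
    conv_lhs => rw [hq, hr]
    ring
  have h1 : FactorsThrough χ (χ.conductor * r) :=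
    FactorsThrough.mono χ (factorsThrough_conductor χ) (dvd_mul_right _ _) ⟨ℓ, by
      conv_lhs => rw [hm]
      ring⟩
  obtain ⟨hd, χ', h2⟩ := h1
  exact ⟨ℓ, χ.conductor * r, hℓ, hm, χ', h2⟩

/-- **All character sums are bounded in terms of those of the primitive characters.** -/
theorem Sm_bound (h : HeckeFn N α V) {D : ℕ} {X : ℝ} (hX : 0 ≤ X)
    (hprim : ∀ (e : ℕ) [NeZero e], e ≤ D → e.Coprime N → ∀ χ : DirichletCharacter ℂ e,
      χ.IsPrimitive → ‖Sm V e χ‖ ≤ X) :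
    ∀ (m : ℕ) [NeZero m], m ≤ D → m.Coprime N → ∀ χ : DirichletCharacter ℂ m,
      ‖Sm V m χ‖ ≤ (m : ℝ) ^ 3 * X := by
  intro m
  induction m using Nat.strong_induction_on with
  | _ m ih =>
    intro _ hmD hmN χ
    have hm1 : (1 : ℝ) ≤ m := by exact_mod_cast NeZero.pos m
    by_cases hp : χ.IsPrimitive
    · refine (hprim m hmD hmN χ hp).trans ?_
      have : (1 : ℝ) ≤ (m : ℝ) ^ 3 := one_le_pow₀ hm1
      nlinarith
    obtain ⟨ℓ, m', hℓ, hm, χ', hχ'⟩ := exists_prime_level χ hp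
    subst hm
    subst hχ'
    have hm'0 : m' ≠ 0 := by
      rintro rfl
      exact NeZero.ne (ℓ * 0) (mul_zero ℓ)
    have : NeZero m' := ⟨hm'0⟩
    have hm'pos : 0 < m' := Nat.pos_of_ne_zero hm'0
    have hlt : m' < ℓ * m' := by
      have := hℓ.two_le
      nlinarith
    have hm'N : m'.Coprime N := Nat.Coprime.coprime_mul_left hmN
    have hℓcop : ℓ.Coprime N := Nat.Coprime.coprime_mul_right hmN
    have hℓN : ¬ ℓ ∣ N := (Nat.Prime.coprime_iff_not_dvd hℓ).1 hℓcop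
    have h1 := ih m' hlt (hlt.le.trans hmD) hm'N
    have hℓ2 : (2 : ℝ) ≤ ℓ := by exact_mod_cast hℓ.two_le
    have hm'R : (0 : ℝ) < m' := by exact_mod_cast hm'pos
    have hstep := Sm_step h hℓ hℓN hm'N χ'
    change ‖Sm V (ℓ * m') (changeLevel (dvd_mul_left m' ℓ) χ')‖ ≤ _
    rw [hstep]
    have hα := h.bound ℓ hℓ hℓN
    set Y : ℝ := (m' : ℝ) ^ 3 * X with hY
    have hY0 : 0 ≤ Y := by positivity
    have hS := h1 χ'
    by_cases hd : ℓ ∣ m'
    · obtain ⟨m₂, rfl⟩ := hd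
      have hm₂0 : m₂ ≠ 0 := by
        rintro rfl
        exact hm'0 (mul_zero ℓ)
      have : NeZero m₂ := ⟨hm₂0⟩
      have hm₂pos : 0 < m₂ := Nat.pos_of_ne_zero hm₂0
      have hlt2 : m₂ < ℓ * m₂ := by
        have := hℓ.two_le
        nlinarith
      have h2 := ih m₂ (hlt2.trans hlt) ((hlt2.trans hlt).le.trans hmD)
        (Nat.Coprime.coprime_mul_left hm'N)
      have h3 := twist_dvd h hℓ χ' (X := (m₂ : ℝ) ^ 3 * X) (by positivity) h2
      have h4 : χ' ((ℓ : ℕ) : ZMod (ℓ * m₂)) = 0 := by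
        apply MulChar.map_nonunit
        rw [ZMod.isUnit_iff_coprime]
        intro hc
        have := Nat.Coprime.coprime_mul_right_right hc
        rw [Nat.coprime_self] at this
        exact hℓ.one_lt.ne' this
      rw [h4, zero_mul, sub_zero]
      calc ‖α ℓ * Sm V (ℓ * m₂) χ' - ∑ b ∈ range (ℓ * m₂), χ' (b : ZMod (ℓ * m₂)) *
            V (ℓ * ((b : ℚ) / ((ℓ * m₂ : ℕ) : ℚ)))‖
          ≤ ‖α ℓ * Sm V (ℓ * m₂) χ'‖ + ‖∑ b ∈ range (ℓ * m₂), χ' (b : ZMod (ℓ * m₂)) *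
            V (ℓ * ((b : ℚ) / ((ℓ * m₂ : ℕ) : ℚ)))‖ := norm_sub_le _ _
        _ ≤ (ℓ + 1) * Y + ℓ * ((m₂ : ℝ) ^ 3 * X) := by
            rw [norm_mul]
            gcongr
        _ ≤ (((ℓ * (ℓ * m₂) : ℕ) : ℕ) : ℝ) ^ 3 * X := by
            rw [hY]
            push_cast
            have e1 : ((ℓ : ℝ) * (ℓ * m₂)) ^ 3 * X = (ℓ : ℝ) ^ 6 * ((m₂ : ℝ) ^ 3 * X) := by ring
            have e2 : ((ℓ : ℝ) + 1) * (((ℓ : ℝ) * m₂) ^ 3 * X) + ℓ * ((m₂ : ℝ) ^ 3 * X) =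
                (((ℓ : ℝ) + 1) * (ℓ : ℝ) ^ 3 + ℓ) * ((m₂ : ℝ) ^ 3 * X) := by ring
            rw [e1, e2]
            have h5 : ((ℓ : ℝ) + 1) * (ℓ : ℝ) ^ 3 + ℓ ≤ (ℓ : ℝ) ^ 6 := by
              have h6 : (ℓ : ℝ) + 1 ≤ (ℓ : ℝ) ^ 2 := by nlinarith
              have h7 : (ℓ : ℝ) ^ 2 * 2 ≤ (ℓ : ℝ) ^ 3 := by nlinarith [sq_nonneg (ℓ : ℝ)]
              have h8 : (ℓ : ℝ) ^ 3 * 2 ≤ (ℓ : ℝ) ^ 4 := by nlinarith [pow_nonneg (by linarith : (0:ℝ) ≤ ℓ) 3]
              have h9 : (ℓ : ℝ) ^ 4 * 2 ≤ (ℓ : ℝ) ^ 5 := by nlinarith [pow_nonneg (by linarith : (0:ℝ) ≤ ℓ) 4]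
              have h10 : (ℓ : ℝ) ^ 5 * 2 ≤ (ℓ : ℝ) ^ 6 := by nlinarith [pow_nonneg (by linarith : (0:ℝ) ≤ ℓ) 5]
              have h11 : ((ℓ : ℝ) + 1) * (ℓ : ℝ) ^ 3 ≤ (ℓ : ℝ) ^ 2 * (ℓ : ℝ) ^ 3 := by gcongr
              nlinarith [pow_nonneg (by linarith : (0:ℝ) ≤ ℓ) 5]
            gcongr
    · have hc : ℓ.Coprime m' := (Nat.Prime.coprime_iff_not_dvd hℓ).2 hd
      have h3 := twist_coprime h hc χ'
      have h4 : ‖χ' ((ℓ : ℕ) : ZMod m')‖ = 1 := by
        have := χ'.unit_norm_eq_one (ZMod.unitOfCoprime ℓ hc)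
        rwa [ZMod.coe_unitOfCoprime] at this
      calc ‖α ℓ * Sm V m' χ' - ∑ b ∈ range m', χ' (b : ZMod m') * V (ℓ * ((b : ℚ) / m')) -
            χ' (ℓ : ZMod m') * Sm V m' χ'‖
          ≤ ‖α ℓ * Sm V m' χ'‖ + ‖∑ b ∈ range m', χ' (b : ZMod m') * V (ℓ * ((b : ℚ) / m'))‖ +
            ‖χ' (ℓ : ZMod m') * Sm V m' χ'‖ :=
              (norm_sub_le _ _).trans (add_le_add_left (norm_sub_le _ _) _)
        _ ≤ (ℓ + 1) * Y + Y + 1 * Y := by
            rw [h3, norm_mul, norm_mul, h4]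
            gcongr
        _ = (ℓ + 3) * Y := by ring
        _ ≤ (((ℓ * m' : ℕ) : ℕ) : ℝ) ^ 3 * X := by
            rw [hY]
            push_cast
            have e1 : ((ℓ : ℝ) * m') ^ 3 * X = (ℓ : ℝ) ^ 3 * ((m' : ℝ) ^ 3 * X) := by ring
            rw [e1]
            have h5 : (ℓ : ℝ) + 3 ≤ (ℓ : ℝ) ^ 3 := by nlinarith [sq_nonneg ((ℓ : ℝ) - 2)]
            gcongr

/-- The values of the function are bounded in terms of the character sums. -/
theorem val_bound (h : HeckeFn N α V) {D : ℕ} {X : ℝ} (hX : 0 ≤ X)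
    (hprim : ∀ (e : ℕ) [NeZero e], e ≤ D → e.Coprime N → ∀ χ : DirichletCharacter ℂ e,
      χ.IsPrimitive → ‖Sm V e χ‖ ≤ X)
    (m : ℕ) (hm : 0 < m) (hmD : m ≤ D) (hmN : m.Coprime N) (b : ℕ) (hb : b.Coprime m) :
    ‖V ((b : ℚ) / m)‖ ≤ (m : ℝ) ^ 3 * X := by
  have : NeZero m := ⟨hm.ne'⟩
  have h1 := Sm_bound h hX hprim m hmD hmN
  have hbu : IsUnit (b : ZMod m) := (ZMod.isUnit_iff_coprime b m).2 hb
  have h2 : (Nat.totient m : ℂ) * V ((b : ℚ) / m) =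
      ∑ χ : DirichletCharacter ℂ m, χ (b : ZMod m)⁻¹ * Sm V m χ := by
    unfold Sm
    simp_rw [mul_sum]
    rw [sum_comm]
    have h3 : ∀ c : ZMod m, ∑ χ : DirichletCharacter ℂ m, χ (b : ZMod m)⁻¹ *
        (χ c * V ((c.val : ℚ) / m)) = if (b : ZMod m) = c then
          (Nat.totient m : ℂ) * V ((c.val : ℚ) / m) else 0 := by
      intro c
      have h4 := sum_char_inv_mul_char_eq (R := ℂ) hbu c
      simp_rw [← mul_assoc]
      rw [← sum_mul, h4]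
      split_ifs <;> simp
    rw [sum_congr rfl (fun c _ => h3 c), sum_ite_eq]
    simp only [mem_univ, if_true]
    rw [h.cast]
  have hφ : (0 : ℝ) < Nat.totient m := by exact_mod_cast Nat.totient_pos.2 hm
  have h5 : (Nat.totient m : ℝ) * ‖V ((b : ℚ) / m)‖ ≤ Nat.totient m * ((m : ℝ) ^ 3 * X) := by
    have h6 := congrArg norm h2
    rw [norm_mul, Complex.norm_natCast] at h6
    rw [h6]
    refine (norm_sum_le _ _).trans ?_
    have h7 : ∀ χ ∈ (univ : Finset (DirichletCharacter ℂ m)),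
        ‖χ (b : ZMod m)⁻¹ * Sm V m χ‖ ≤ (m : ℝ) ^ 3 * X := by
      intro χ _
      rw [norm_mul]
      calc ‖χ (b : ZMod m)⁻¹‖ * ‖Sm V m χ‖ ≤ 1 * ((m : ℝ) ^ 3 * X) :=
            mul_le_mul (χ.norm_le_one _) (h1 χ) (norm_nonneg _) zero_le_one
        _ = (m : ℝ) ^ 3 * X := one_mul _
    refine (sum_le_sum h7).trans ?_
    rw [sum_const, nsmul_eq_mul]
    have h8 : ((univ : Finset (DirichletCharacter ℂ m)).card : ℝ) = Nat.totient m := by
      rw [card_univ, ← Nat.card_eq_fintype_card,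
        DirichletCharacter.card_eq_totient_of_hasEnoughRootsOfUnity ℂ m]
    rw [h8]
  exact le_of_mul_le_mul_left h5 hφ

end Pool.Agent.K4H67.TV
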