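import Pool.Agent.K4H67.TV.Lim

/-!
# The values of the primitive of a cusp form at the cusps with denominator prime to the level
-/

set_option autoImplicit false

open Complex Filter Topology Matrix.SpecialLinearGroup MatrixGroups MeasureTheory

namespace Pool.Agent.K4H67.TV

open Pool.Agent.TH133.SH

variable {N : ℕ} {a : ℕ → ℤ}

/-- `u` is the limit of `F(x + i y)` for `y → 0+`. -/
def HasVal (a : ℕ → ℤ) (x : ℚ) (u : ℂ) : Prop :=
  Tendsto (fun y : ℝ => Fser a ((x : ℂ) + (y : ℂ) * Complex.I)) (𝓝[>] 0) (𝓝 u)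

lemma HasVal.unique {x : ℚ} {u v : ℂ} (h : HasVal a x u) (h' : HasVal a x v) : u = v :=
  tendsto_nhds_unique h h'

lemma act_S (z : ℂ) : act ModularGroup.S z = -1 / z := by
  unfold act mob
  rw [S_ent.1, S_ent.2.1, S_ent.2.2.1, S_ent.2.2.2]
  push_cast
  congr 1 <;> ring

lemma tendsto_S (hN : 1 ≤ N) (ha : IsForm N a) :
    ∃ u : ℂ, Tendsto (fun Y : ℝ => Fser a (mob 0 (-1) 1 0 ((Y : ℂ) * Complex.I))) atTop (𝓝 u) := by
  have hN0 : (0 : ℝ) < N := by exact_mod_cast hN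
  set S := ModularGroup.S with hS
  set f' : ℝ → ℂ := fun Y => 2 * (Real.pi : ℂ) * Complex.I *
    fser a (mob 0 (-1) 1 0 ((Y : ℂ) * Complex.I)) *
      (1 / (((1 : ℝ) : ℂ) * ((Y : ℂ) * Complex.I) + ((0 : ℝ) : ℂ)) ^ 2) * Complex.I with hf'
  have him : ∀ Y : ℝ, 0 < Y → 0 < ((Y : ℂ) * Complex.I).im := fun Y hY => by simpa using hY
  have hder : ∀ Y ∈ Set.Ioi (1 : ℝ), HasDerivAt
      (fun Y : ℝ => Fser a (mob 0 (-1) 1 0 ((Y : ℂ) * Complex.I))) (f' Y) Y := by
    intro Y hY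
    have hY0 : (0 : ℝ) < Y := lt_trans one_pos hY
    have h1 := hasDerivAt_comp ha (p := 0) (q := -1) (r := 1) (s := 0) (by norm_num) (him Y hY0)
    have h2 : HasDerivAt (fun w : ℂ => w * Complex.I) Complex.I (Y : ℂ) := by
      simpa using (hasDerivAt_id (Y : ℂ)).mul_const Complex.I
    have h3 := HasDerivAt.comp (Y : ℂ) h1 h2
    exact h3.comp_ofReal
  have heq : ∀ Y : ℝ, 0 < Y → f' Y = 2 * (Real.pi : ℂ) * Complex.I *
      slash a S ((Y : ℂ) * Complex.I) * Complex.I := by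
    intro Y hY
    rw [slash_eq S (him Y hY)]
    simp only [hf']
    have e1 : act S ((Y : ℂ) * Complex.I) = mob 0 (-1) 1 0 ((Y : ℂ) * Complex.I) := by
      unfold act
      rw [S_ent.1, S_ent.2.1, S_ent.2.2.1, S_ent.2.2.2]
      push_cast
      rfl
    rw [e1, S_ent.2.2.1, S_ent.2.2.2]
    push_cast
    ring
  have hcont : ContinuousOn f' (Set.Ici 1) := by
    intro Y hY
    have hY0 : (0 : ℝ) < Y := lt_of_lt_of_le one_pos hY
    have h1 : ContinuousAt (slash a S) ((Y : ℂ) * Complex.I) :=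
      (diff_slash ha S (him Y hY0)).continuousAt
    have h2 : ContinuousAt (fun Y : ℝ => slash a S ((Y : ℂ) * Complex.I)) Y :=
      ContinuousAt.comp (f := fun Y : ℝ => (Y : ℂ) * Complex.I) h1 (by fun_prop)
    have h3 : ContinuousAt (fun Y : ℝ => 2 * (Real.pi : ℂ) * Complex.I *
      slash a S ((Y : ℂ) * Complex.I) * Complex.I) Y :=
      (continuousAt_const.mul h2).mul continuousAt_const
    refine (h3.congr ?_).continuousWithinAt
    filter_upwards [lt_mem_nhds hY0] with Z hZ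
    exact (heq Z hZ).symm
  have hO : (fun Y => ‖f' Y‖) =O[atTop] fun Y : ℝ => Real.exp (-(2 * Real.pi / N) * Y) := by
    have h1 := slash_decay hN ha S
    have h2 : Tendsto (fun Y : ℝ => (Y : ℂ) * Complex.I) atTop (comap Complex.im atTop) := by
      rw [tendsto_comap_iff]
      refine tendsto_id.congr (fun Y => ?_)
      simp
    have h3 := h1.comp_tendsto h2
    have h4 : (fun Y => ‖f' Y‖) =O[atTop] (slash a S ∘ fun Y : ℝ => (Y : ℂ) * Complex.I) := by
      refine Asymptotics.IsBigO.of_bound (2 * Real.pi) ?_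
      filter_upwards [eventually_gt_atTop 0] with Y hY
      rw [heq Y hY, norm_norm]
      simp only [norm_mul, Complex.norm_I, mul_one, Complex.norm_real, Real.norm_eq_abs,
        abs_of_pos Real.pi_pos, Function.comp]
      simp
    refine h4.trans (h3.congr_right (fun Y => ?_))
    simp only [Function.comp]
    congr 1
    simp
    ring
  have hint : IntegrableOn f' (Set.Ioi 1) := by
    have h1 := integrable_of_isBigO_exp_neg (a := 1) (b := 2 * Real.pi / N) (by positivity)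
      hcont.norm hO
    have h2 : AEStronglyMeasurable f' (volume.restrict (Set.Ioi 1)) :=
      (hcont.mono Set.Ioi_subset_Ici_self).aestronglyMeasurable measurableSet_Ioi
    exact (integrable_norm_iff h2).1 h1
  exact ⟨_, tendsto_limUnder_of_hasDerivAt_of_integrableOn_Ioi hder hint⟩

lemma hasVal_zero (hN : 1 ≤ N) (ha : IsForm N a) : ∃ u : ℂ, HasVal a 0 u ∧
    Tendsto (fun Y : ℝ => Fser a (mob 0 (-1) 1 0 ((Y : ℂ) * Complex.I))) atTop (𝓝 u) := by
  obtain ⟨u, hu⟩ := tendsto_S hN ha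
  refine ⟨u, ?_, hu⟩
  have h1 := hu.comp tendsto_inv_nhdsGT_zero
  refine h1.congr' ?_
  filter_upwards [self_mem_nhdsWithin] with y hy
  have hy0 : (0 : ℝ) < y := hy
  simp only [Function.comp]
  congr 1
  unfold mob
  have : (y : ℂ) ≠ 0 := by exact_mod_cast hy0.ne'
  push_cast
  rw [show (((0 : ℂ)) * ((y : ℂ)⁻¹ * Complex.I) + -1) = -1 by ring,
    show ((1 : ℂ) * ((y : ℂ)⁻¹ * Complex.I) + 0) = (y : ℂ)⁻¹ * Complex.I by ring,
    div_eq_iff (mul_ne_zero (inv_ne_zero this) Complex.I_ne_zero)]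
  field_simp
  linear_combination (-(y : ℂ)) * Complex.I_mul_I

/-- The value at a cusp `γ(0)`, `γ ∈ Γ₀(N)`. -/
lemma hasVal_cusp (ha : IsForm N a) {u : ℂ}
    (hu : Tendsto (fun Y : ℝ => Fser a (mob 0 (-1) 1 0 ((Y : ℂ) * Complex.I))) atTop (𝓝 u))
    {g : SL(2, ℤ)} (hg : InG N g) (hd : g 1 1 ≠ 0) {x : ℚ}
    (hx : x = (g 0 1 : ℚ) / (g 1 1 : ℚ)) : HasVal a x (Hs a g + u) := by
  obtain ⟨B, hB⟩ := ha.bounded
  set d : ℝ := ((g 1 1 : ℤ) : ℝ) with hdd
  have hd0 : d ≠ 0 := by rw [hdd]; exact_mod_cast hd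
  have hd2 : 0 < d ^ 2 := by positivity
  set t : ℝ := ((g 1 0 : ℤ) : ℝ) / d with ht
  have hY : Tendsto (fun y : ℝ => (d ^ 2 * y)⁻¹) (𝓝[>] 0) atTop := by
    apply tendsto_inv_nhdsGT_zero.comp
    rw [tendsto_nhdsWithin_iff]
    constructor
    · have : Tendsto (fun y : ℝ => d ^ 2 * y) (𝓝 0) (𝓝 (d ^ 2 * 0)) :=
        (continuous_const.mul continuous_id).tendsto 0
      rw [mul_zero] at this
      exact this.mono_left nhdsWithin_le_nhds
    · filter_upwards [self_mem_nhdsWithin] with y hy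
      have hy0 : (0 : ℝ) < y := hy
      exact Set.mem_Ioi.2 (by positivity)
  -- the main comparison
  have h1 : Tendsto (fun y : ℝ => Fser a (mob 0 (-1) 1 0 ((((d ^ 2 * y)⁻¹ : ℝ) : ℂ) *
      Complex.I + t))) (𝓝[>] 0) (𝓝 u) := by
    have h2 := hu.comp hY
    have h3 : Tendsto (fun y : ℝ => 2 * Real.pi * B / ((d ^ 2 * y)⁻¹) * |t|) (𝓝[>] 0) (𝓝 0) := by
      have h4 : Tendsto (fun y : ℝ => 2 * Real.pi * B * |t| * (((d ^ 2 * y)⁻¹)⁻¹)) (𝓝[>] 0)
          (𝓝 (2 * Real.pi * B * |t| * 0)) := (tendsto_inv_atTop_zero.comp hY).const_mul _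
      rw [mul_zero] at h4
      refine h4.congr (fun y => ?_)
      ring
    have h5 : Tendsto (fun y : ℝ => Fser a (mob 0 (-1) 1 0 ((((d ^ 2 * y)⁻¹ : ℝ) : ℂ) *
      Complex.I + t)) - Fser a (mob 0 (-1) 1 0 ((((d ^ 2 * y)⁻¹ : ℝ) : ℂ) *
      Complex.I))) (𝓝[>] 0) (𝓝 0) := by
      rw [tendsto_zero_iff_norm_tendsto_zero]
      refine squeeze_zero' (Eventually.of_forall fun y => norm_nonneg _) ?_ h3
      filter_upwards [self_mem_nhdsWithin] with y hy
      have hy0 : (0 : ℝ) < y := hy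
      exact horo ha (p := 0) (q := -1) (r := 1) (s := 0) (by norm_num) hB t (by positivity)
    have h6 := h5.add h2
    rw [zero_add] at h6
    refine h6.congr (fun y => ?_)
    simp only [Function.comp]
    ring
  have h7 := h1.const_add (Hs a g)
  refine h7.congr' ?_
  filter_upwards [self_mem_nhdsWithin] with y hy
  have hy0 : (0 : ℝ) < y := hy
  set w : ℂ := (((d ^ 2 * y)⁻¹ : ℝ) : ℂ) * Complex.I + t with hw
  have hwim : 0 < w.im := by
    have : w.im = (d ^ 2 * y)⁻¹ := by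
      rw [hw, Complex.add_im, Complex.ofReal_im, add_zero, Complex.im_ofReal_mul, Complex.I_im, mul_one]
    rw [this]
    exact inv_pos.2 (mul_pos hd2 hy0)
  have hw0 : w ≠ 0 := by
    intro h
    rw [h] at hwim
    simp at hwim
  have hτ : 0 < (mob 0 (-1) 1 0 w).im := im_mob_pos (by norm_num) hwim
  rw [← diff_eq ha hg hτ]
  have e1 : act g (mob 0 (-1) 1 0 w) = (x : ℂ) + (y : ℂ) * Complex.I := by
    have hdc : (d : ℂ) ≠ 0 := by exact_mod_cast hd0
    have hyc : (y : ℂ) ≠ 0 := by exact_mod_cast hy0.ne'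
    have hdet : ((g 0 0 : ℤ) : ℂ) * d - ((g 0 1 : ℤ) : ℂ) * ((g 1 0 : ℤ) : ℂ) = 1 := by
      rw [hdd]
      exact_mod_cast congrArg (fun x : ℤ => (x : ℂ)) (det_eq g)
    have hm : mob 0 (-1) 1 0 w = -1 / w := by
      unfold mob
      push_cast
      congr 1 <;> ring
    have hxc : (x : ℂ) = ((g 0 1 : ℤ) : ℂ) / d := by
      rw [hx, hdd]
      push_cast
      rfl
    have hwc : w * (d : ℂ) - ((g 1 0 : ℤ) : ℂ) = Complex.I / (d * y) := by
      rw [hw, ht]
      push_cast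
      field_simp
      ring
    rw [hm, hxc]
    unfold act mob
    have hden : (((g 1 0 : ℤ) : ℝ) : ℂ) * (-1 / w) + (((g 1 1 : ℤ) : ℝ) : ℂ) =
        (Complex.I / (d * y)) / w := by
      rw [← hwc, hdd]
      push_cast
      field_simp
      ring
    rw [hden, div_eq_iff (by
      refine div_ne_zero (div_ne_zero Complex.I_ne_zero (mul_ne_zero hdc hyc)) hw0)]
    push_cast
    rw [show ((g 0 1 : ℤ) : ℂ) / (d : ℂ) + (y : ℂ) * Complex.I =
      (((g 0 1 : ℤ) : ℂ) + (d : ℂ) * y * Complex.I) / d by field_simp]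
    have h8 : Complex.I * Complex.I = -1 := Complex.I_mul_I
    have h9 : w * (d : ℂ) * (d * y) - ((g 1 0 : ℤ) : ℂ) * (d * y) = Complex.I := by
      rw [← sub_mul, hwc]
      field_simp
    have key : (-((g 0 0 : ℤ) : ℂ) + ((g 0 1 : ℤ) : ℂ) * w) * ((d : ℂ) ^ 2 * y) =
        (((g 0 1 : ℤ) : ℂ) + (d : ℂ) * y * Complex.I) * Complex.I := by
      linear_combination (-((d : ℂ) * y)) * hdet + ((g 0 1 : ℤ) : ℂ) * h9 + (-((d : ℂ) * y)) * h8
    clear_value w
    field_simp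
    linear_combination key
  rw [e1]
  ring

end Pool.Agent.K4H67.TV
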