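import Pool.Agent.K4H67.TV.Cusp

/-!
# Hecke relation, conjugation, twisted series
-/

set_option autoImplicit false

open Complex Filter Topology Matrix.SpecialLinearGroup MatrixGroups Finset

namespace Pool.Agent.K4H67.TV

open Pool.Agent.TH133.SH

variable {N : ℕ} {a : ℕ → ℤ}

/-- `exp(2 π i k τ)` -/
noncomputable def ee (k : ℕ) (τ : ℂ) : ℂ := Complex.exp (2 * (Real.pi : ℂ) * Complex.I * (k : ℂ) * τ)

lemma Fser_eq (τ : ℂ) : Fser a τ = ∑' k : ℕ, (a k : ℂ) / (k : ℂ) * ee k τ := rfl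

lemma summable_F (ha : IsForm N a) {τ : ℂ} (hτ : 0 < τ.im) :
    Summable (fun k : ℕ => (a k : ℂ) / (k : ℂ) * ee k τ) := by
  refine Summable.of_norm_bounded (ha.summable τ hτ).norm (fun k => ?_)
  unfold ee
  rw [norm_mul, norm_mul, norm_div]
  gcongr
  rcases Nat.eq_zero_or_pos k with rfl | hk
  · simp
  · apply div_le_self (norm_nonneg _)
    rw [Complex.norm_natCast]
    exact_mod_cast hk

lemma ee_add_int (k : ℕ) (τ : ℂ) (j : ℤ) : ee k (τ + j) = ee k τ := by
  unfold ee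
  rw [mul_add, Complex.exp_add]
  have : Complex.exp (2 * (Real.pi : ℂ) * Complex.I * (k : ℂ) * (j : ℂ)) = 1 := by
    rw [Complex.exp_eq_one_iff]
    exact ⟨k * j, by push_cast; ring⟩
  rw [this, mul_one]

lemma Fser_add_int (τ : ℂ) (j : ℤ) : Fser a (τ + j) = Fser a τ := by
  rw [Fser_eq, Fser_eq]
  exact tsum_congr fun k => by rw [ee_add_int]

lemma Fser_conj (τ : ℂ) : Fser a (-(starRingEnd ℂ τ)) = starRingEnd ℂ (Fser a τ) := by
  rw [Fser_eq, Fser_eq, Complex.conj_tsum]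
  refine tsum_congr fun k => ?_
  unfold ee
  rw [map_mul, map_div₀, ← Complex.exp_conj]
  simp only [map_mul, Complex.conj_I, Complex.conj_ofReal, map_ofNat, map_natCast, map_intCast]
  congr 2
  ring

lemma HasVal.add_int {x : ℚ} {u : ℂ} (h : HasVal a x u) (j : ℤ) : HasVal a (x + j) u := by
  unfold HasVal at *
  refine h.congr (fun y => ?_)
  rw [← Fser_add_int _ j]
  congr 1
  push_cast
  ring

lemma HasVal.conj {x : ℚ} {u : ℂ} (h : HasVal a x u) : HasVal a (-x) (starRingEnd ℂ u) := by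
  unfold HasVal at *
  refine ((Complex.continuous_conj.tendsto u).comp h).congr (fun y => ?_)
  simp only [Function.comp]
  rw [← Fser_conj]
  congr 1
  simp
  ring

/-- sum over the multiples of `ℓ` -/
lemma tsum_multiples {ℓ : ℕ} (hℓ : 0 < ℓ) (f : ℕ → ℂ) :
    ∑' k : ℕ, (if ℓ ∣ k then f k else 0) = ∑' m : ℕ, f (ℓ * m) := by
  have hinj : Function.Injective (fun m : ℕ => ℓ * m) := fun m n h => Nat.eq_of_mul_eq_mul_left hℓ h
  rw [← hinj.tsum_eq (f := fun k => if ℓ ∣ k then f k else 0)]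
  · exact tsum_congr fun m => by simp
  · intro k hk
    rw [Function.mem_support] at hk
    by_contra hc
    apply hk
    rw [if_neg]
    rintro ⟨m, rfl⟩
    exact hc ⟨m, rfl⟩

lemma geom {ℓ : ℕ} (hℓ : 0 < ℓ) (k : ℕ) :
    ∑ j ∈ range ℓ, ee k ((j : ℂ) / ℓ) = if ℓ ∣ k then (ℓ : ℂ) else 0 := by
  have hℓc : (ℓ : ℂ) ≠ 0 := by exact_mod_cast hℓ.ne'
  set ζ : ℂ := Complex.exp (2 * (Real.pi : ℂ) * Complex.I * (k : ℂ) / ℓ) with hζ
  have h1 : ∀ j : ℕ, ee k ((j : ℂ) / ℓ) = ζ ^ j := by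
    intro j
    rw [hζ, ← Complex.exp_nat_mul]
    unfold ee
    congr 1
    ring
  simp_rw [h1]
  split_ifs with h
  · obtain ⟨m, rfl⟩ := h
    have : ζ = 1 := by
      rw [hζ, Complex.exp_eq_one_iff]
      refine ⟨m, ?_⟩
      push_cast
      field_simp
    rw [this]
    simp
  · have hne : ζ ≠ 1 := by
      intro h2
      rw [hζ, Complex.exp_eq_one_iff] at h2
      obtain ⟨m, hm⟩ := h2
      apply h
      have h3 : (k : ℂ) = m * ℓ := by
        have hpi : (2 * (Real.pi : ℂ) * Complex.I) ≠ 0 := by simp [Real.pi_ne_zero]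
        rw [div_eq_iff hℓc] at hm
        have : (2 * (Real.pi : ℂ) * Complex.I) * k = (2 * (Real.pi : ℂ) * Complex.I) * (m * ℓ) := by
          linear_combination hm
        exact mul_left_cancel₀ hpi this
      have h4 : (k : ℤ) = m * ℓ := by exact_mod_cast h3
      exact_mod_cast (Dvd.intro_left m h4.symm : (ℓ : ℤ) ∣ k)
    rw [geom_sum_eq hne]
    have : ζ ^ ℓ = 1 := by
      rw [hζ, ← Complex.exp_nat_mul, Complex.exp_eq_one_iff]
      refine ⟨k, ?_⟩
      push_cast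
      field_simp
    rw [this, sub_self, zero_div]

/-- The Hecke relation for the primitive. -/
lemma hecke_F (ha : IsNewform N a) {ℓ : ℕ} (hℓ : ℓ.Prime) (hℓN : ¬ ℓ ∣ N) {τ : ℂ} (hτ : 0 < τ.im) :
    ∑ j ∈ range ℓ, Fser a ((τ + j) / ℓ) + Fser a (ℓ * τ) = (a ℓ : ℂ) * Fser a τ := by
  have hf := ha.toIsForm
  have hℓ0 : (0 : ℝ) < ℓ := by exact_mod_cast hℓ.pos
  have hℓc : (ℓ : ℂ) ≠ 0 := by exact_mod_cast hℓ.pos.ne'
  have him : 0 < (τ / ℓ).im := by
    rw [Complex.div_natCast_im]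
    positivity
  have him' : 0 < ((ℓ : ℂ) * τ).im := by
    simp
    positivity
  have hsum1 := summable_F hf him
  -- first sum
  have h1 : ∑ j ∈ range ℓ, Fser a ((τ + j) / ℓ) =
      ∑' k : ℕ, (if ℓ ∣ k then (ℓ : ℂ) * ((a k : ℂ) / (k : ℂ) * ee k (τ / ℓ)) else 0) := by
    have h2 : ∀ j ∈ range ℓ, Fser a ((τ + j) / ℓ) =
        ∑' k : ℕ, (a k : ℂ) / (k : ℂ) * ee k (τ / ℓ) * ee k ((j : ℂ) / ℓ) := by
      intro j _
      rw [Fser_eq]
      refine tsum_congr fun k => ?_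
      rw [mul_assoc]
      congr 1
      unfold ee
      rw [← Complex.exp_add]
      congr 1
      ring
    rw [sum_congr rfl h2, ← Summable.tsum_finsetSum]
    · refine tsum_congr fun k => ?_
      rw [← mul_sum, geom hℓ.pos]
      split_ifs
      · ring
      · ring
    · intro j _
      refine Summable.of_norm_bounded hsum1.norm (fun k => ?_)
      rw [norm_mul]
      apply mul_le_of_le_one_right (norm_nonneg _)
      apply le_of_eq
      unfold ee
      rw [Complex.norm_exp]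
      simp [Complex.div_re, Complex.div_im, Complex.mul_re, Complex.mul_im]
  rw [h1, tsum_multiples hℓ.pos]
  -- second sum
  have h3 : Fser a (ℓ * τ) =
      ∑' m : ℕ, (if ℓ ∣ m then (ℓ : ℂ) * (a (m / ℓ) : ℂ) / m * ee m τ else 0) := by
    rw [tsum_multiples hℓ.pos, Fser_eq]
    refine tsum_congr fun k => ?_
    rw [Nat.mul_div_cancel_left k hℓ.pos]
    have : ee (ℓ * k) τ = ee k (ℓ * τ) := by
      unfold ee
      congr 1
      push_cast
      ring
    rw [this]
    congr 1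
    push_cast
    rcases Nat.eq_zero_or_pos k with rfl | hk
    · simp
    · have : (k : ℂ) ≠ 0 := by exact_mod_cast hk.ne'
      field_simp
  have hs1 : Summable (fun m : ℕ => (ℓ : ℂ) * ((a (ℓ * m) : ℂ) / ((ℓ * m : ℕ) : ℂ) *
      ee (ℓ * m) (τ / ℓ))) := by
    have hinj : Function.Injective (fun m : ℕ => ℓ * m) :=
      fun m n h => Nat.eq_of_mul_eq_mul_left hℓ.pos h
    exact (hsum1.comp_injective hinj).mul_left _
  have hs2 : Summable (fun m : ℕ =>
      (if ℓ ∣ m then (ℓ : ℂ) * (a (m / ℓ) : ℂ) / m * ee m τ else 0)) := by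
    have hinj : Function.Injective (fun m : ℕ => ℓ * m) :=
      fun m n h => Nat.eq_of_mul_eq_mul_left hℓ.pos h
    rw [← hinj.summable_iff]
    · refine (summable_F hf him').congr (fun k => ?_)
      simp only [Function.comp]
      rw [if_pos (dvd_mul_right ℓ k), Nat.mul_div_cancel_left k hℓ.pos]
      have : ee (ℓ * k) τ = ee k (ℓ * τ) := by
        unfold ee
        congr 1
        push_cast
        ring
      rw [this]
      congr 1
      push_cast
      rcases Nat.eq_zero_or_pos k with rfl | hk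
      · simp
      · have : (k : ℂ) ≠ 0 := by exact_mod_cast hk.ne'
        field_simp
    · intro m hm
      rw [if_neg]
      rintro ⟨k, rfl⟩
      exact hm ⟨k, rfl⟩
  rw [h3, ← hs1.tsum_add hs2, Fser_eq, ← tsum_mul_left]
  refine tsum_congr fun m => ?_
  have e1 : ee (ℓ * m) (τ / ℓ) = ee m τ := by
    unfold ee
    congr 1
    push_cast
    field_simp
  rw [e1]
  have h5 := congrArg (fun x : ℤ => (x : ℂ)) (ha.hecke ℓ hℓ hℓN m)
  push_cast at h5
  rcases Nat.eq_zero_or_pos m with rfl | hm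
  · simp
  · have hm0 : (m : ℂ) ≠ 0 := by exact_mod_cast hm.ne'
    have e2 : (ℓ : ℂ) * ((a (ℓ * m) : ℂ) / ((ℓ * m : ℕ) : ℂ) * ee m τ) =
        (a (ℓ * m) : ℂ) / m * ee m τ := by
      push_cast
      field_simp
    rw [e2]
    split_ifs at h5 ⊢ with hd
    · rw [show (a ℓ : ℂ) * ((a m : ℂ) / m * ee m τ) = ((a ℓ : ℂ) * a m) / m * ee m τ by ring, ← h5]
      ring
    · rw [show (a ℓ : ℂ) * ((a m : ℂ) / m * ee m τ) = ((a ℓ : ℂ) * a m) / m * ee m τ by ring, ← h5]
      ring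

/-- The Hecke relation for the boundary values. -/
lemma hecke_val (ha : IsNewform N a) {ℓ : ℕ} (hℓ : ℓ.Prime) (hℓN : ¬ ℓ ∣ N) {x : ℚ} {u v : ℂ}
    {w : ℕ → ℂ} (hu : HasVal a x u) (hv : HasVal a (ℓ * x) v)
    (hw : ∀ j ∈ range ℓ, HasVal a ((x + j) / ℓ) (w j)) :
    ∑ j ∈ range ℓ, w j + v = (a ℓ : ℂ) * u := by
  have hℓ0 : (0 : ℝ) < ℓ := by exact_mod_cast hℓ.pos
  have hℓc : (ℓ : ℂ) ≠ 0 := by exact_mod_cast hℓ.pos.ne'
  have hscale : ∀ c : ℝ, 0 < c → Tendsto (fun y : ℝ => c * y) (𝓝[>] 0) (𝓝[>] 0) := by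
    intro c hc
    rw [tendsto_nhdsWithin_iff]
    constructor
    · have : Tendsto (fun y : ℝ => c * y) (𝓝 0) (𝓝 (c * 0)) :=
        (continuous_const.mul continuous_id).tendsto 0
      rw [mul_zero] at this
      exact this.mono_left nhdsWithin_le_nhds
    · filter_upwards [self_mem_nhdsWithin] with y hy
      have hy0 : (0 : ℝ) < y := hy
      exact Set.mem_Ioi.2 (by positivity)
  have h1 : Tendsto (fun y : ℝ => ∑ j ∈ range ℓ, Fser a ((((x : ℂ) + (y : ℂ) * Complex.I) + j) / ℓ))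
      (𝓝[>] 0) (𝓝 (∑ j ∈ range ℓ, w j)) := by
    refine tendsto_finsetSum _ (fun j hj => ?_)
    have h2 := (hw j hj).comp (hscale (ℓ : ℝ)⁻¹ (by positivity))
    refine h2.congr (fun y => ?_)
    simp only [Function.comp]
    congr 1
    push_cast
    field_simp
    ring
  have h2 : Tendsto (fun y : ℝ => Fser a (ℓ * ((x : ℂ) + (y : ℂ) * Complex.I)))
      (𝓝[>] 0) (𝓝 v) := by
    refine (hv.comp (hscale (ℓ : ℝ) hℓ0)).congr (fun y => ?_)
    simp only [Function.comp]
    congr 1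
    push_cast
    ring
  have h3 := h1.add h2
  have h4 := hu.const_mul (a ℓ : ℂ)
  refine tendsto_nhds_unique (h3.congr' ?_) h4
  filter_upwards [self_mem_nhdsWithin] with y hy
  have hy0 : (0 : ℝ) < y := hy
  have him : 0 < ((x : ℂ) + (y : ℂ) * Complex.I).im := by
    simpa using hy0
  exact hecke_F ha hℓ hℓN him

end Pool.Agent.K4H67.TV
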