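import Pool.Agent.TH133.SH.GenMain

/-!
# The boundary values of the primitive of a cusp form at the cusps with denominator prime to the level
-/

set_option autoImplicit false

open Complex Filter Topology Matrix.SpecialLinearGroup MatrixGroups Function.Periodic

namespace Pool.Agent.K4H67.TV

open Pool.Agent.TH133.SH

variable {N : ℕ} {a : ℕ → ℤ}

lemma isOpen_H : IsOpen {w : ℂ | 0 < w.im} := isOpen_lt continuous_const Complex.continuous_im

lemma diffOn_Fser (ha : IsForm N a) : DifferentiableOn ℂ (Fser a) {w : ℂ | 0 < w.im} :=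
  fun _ hz => (hasDerivAt_Fser ha.zero ha.summable hz).differentiableAt.differentiableWithinAt

lemma diffOn_fser (ha : IsForm N a) : DifferentiableOn ℂ (fser a) {w : ℂ | 0 < w.im} := by
  have h1 : DifferentiableOn ℂ (deriv (Fser a)) {w : ℂ | 0 < w.im} :=
    (diffOn_Fser ha).deriv isOpen_H
  have h2 : DifferentiableOn ℂ (fun z => (2 * (Real.pi : ℂ) * Complex.I)⁻¹ * deriv (Fser a) z)
      {w : ℂ | 0 < w.im} := h1.const_mul _
  refine h2.congr (fun z hz => ?_)
  rw [(hasDerivAt_Fser ha.zero ha.summable hz).deriv]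
  have : (2 * (Real.pi : ℂ) * Complex.I) ≠ 0 := by
    simp [Real.pi_ne_zero]
  field_simp

/-- the function `(f | g)(z) = f(g z) / (c z + d) ^ 2` on the upper half plane, zero elsewhere -/
noncomputable def slash (a : ℕ → ℤ) (g : SL(2, ℤ)) (z : ℂ) : ℂ := by
  classical
  exact if 0 < z.im then fser a (act g z) / (((g 1 0 : ℤ) : ℂ) * z + ((g 1 1 : ℤ) : ℂ)) ^ 2 else 0

lemma slash_eq (g : SL(2, ℤ)) {z : ℂ} (hz : 0 < z.im) :
    slash a g z = fser a (act g z) / (((g 1 0 : ℤ) : ℂ) * z + ((g 1 1 : ℤ) : ℂ)) ^ 2 := by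
  unfold slash
  exact if_pos hz

lemma den_ne' (g : SL(2, ℤ)) {z : ℂ} (hz : 0 < z.im) :
    ((g 1 0 : ℤ) : ℂ) * z + ((g 1 1 : ℤ) : ℂ) ≠ 0 := by
  have := den_ne (det_real g) hz
  push_cast at this
  exact this

lemma im_act (g : SL(2, ℤ)) {z : ℂ} (hz : 0 < z.im) :
    (act g z).im = z.im / ‖((g 1 0 : ℤ) : ℂ) * z + ((g 1 1 : ℤ) : ℂ)‖ ^ 2 := by
  have := im_mob (det_real g) hz
  push_cast at this
  exact this

lemma norm_slash (g : SL(2, ℤ)) {z : ℂ} (hz : 0 < z.im) :
    z.im * ‖slash a g z‖ = (act g z).im * ‖fser a (act g z)‖ := by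
  rw [slash_eq g hz, im_act g hz, norm_div, norm_pow]
  ring

lemma fser_act (ha : IsForm N a) {g : SL(2, ℤ)} (hg : InG N g) {z : ℂ} (hz : 0 < z.im) :
    fser a (act g z) = (((g 1 0 : ℤ) : ℂ) * z + ((g 1 1 : ℤ) : ℂ)) ^ 2 * fser a z := by
  have := ha.modular z hz (g 0 0) (g 0 1) (g 1 0) (g 1 1) (det_eq g) hg
  rw [← this]
  unfold act mob
  push_cast
  rfl

lemma act_T (k : ℤ) (z : ℂ) : act (ModularGroup.T ^ k) z = z + k := by
  unfold act
  rw [(T_pow k).1, (T_pow k).2.1, (T_pow k).2.2.1, (T_pow k).2.2.2]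
  have := mob_T (k : ℝ) z
  push_cast at this ⊢
  exact this

lemma slash_periodic (ha : IsForm N a) (g : SL(2, ℤ)) :
    Function.Periodic (slash a g) ((N : ℝ) : ℂ) := by
  intro z
  have him : (z + ((N : ℝ) : ℂ)).im = z.im := by simp
  by_cases hz : 0 < z.im
  · have hz' : 0 < (z + ((N : ℝ) : ℂ)).im := by rw [him]; exact hz
    set k : ℤ := (N : ℤ) with hk
    have e0 : z + ((N : ℝ) : ℂ) = act (ModularGroup.T ^ k) z := by
      rw [act_T, hk]
      push_cast
      rfl
    obtain ⟨h, hh⟩ : ∃ h : SL(2, ℤ), h = g * ModularGroup.T ^ k * g⁻¹ := ⟨_, rfl⟩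
    have e1 : g * ModularGroup.T ^ k = h * g := by rw [hh]; group
    have e10 : h 1 0 = - (g 1 0 ^ 2 * k) := by
      have ht := T_pow k
      rw [hh, mul10, mul10, mul11, inv00, inv10, ht.1, ht.2.1, ht.2.2.1, ht.2.2.2]
      ring
    have hG : InG N h := by
      unfold InG
      rw [e10, hk]
      exact ⟨-(g 1 0 ^ 2), by ring⟩
    rw [slash_eq g hz', slash_eq g hz, e0, ← act_mul g _ hz, e1, act_mul h g hz,
      fser_act ha hG (act_im_pos g hz)]
    have hd := den_ne' g hz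
    have hd' : ((g 1 0 : ℤ) : ℂ) * act (ModularGroup.T ^ k) z + ((g 1 1 : ℤ) : ℂ) ≠ 0 := by
      rw [← e0]
      exact den_ne' g hz'
    have hdh := den_ne' h (act_im_pos g hz)
    -- cocycle
    have hco : (((h 1 0 : ℤ) : ℂ) * act g z + ((h 1 1 : ℤ) : ℂ)) *
        (((g 1 0 : ℤ) : ℂ) * z + ((g 1 1 : ℤ) : ℂ)) =
        ((g 1 0 : ℤ) : ℂ) * act (ModularGroup.T ^ k) z + ((g 1 1 : ℤ) : ℂ) := by
      have h1 : act g z * (((g 1 0 : ℤ) : ℂ) * z + ((g 1 1 : ℤ) : ℂ)) =
          ((g 0 0 : ℤ) : ℂ) * z + ((g 0 1 : ℤ) : ℂ) := by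
        unfold act mob
        push_cast
        exact div_mul_cancel₀ _ hd
      have h2 : (h * g) 1 0 = (g * ModularGroup.T ^ k) 1 0 := by rw [e1]
      have h3 : (h * g) 1 1 = (g * ModularGroup.T ^ k) 1 1 := by rw [e1]
      have ht := T_pow k
      rw [mul10, mul10, ht.1, ht.2.2.1] at h2
      rw [mul11, mul11, ht.2.1, ht.2.2.2] at h3
      have h2' : ((h 1 0 : ℤ) : ℂ) * ((g 0 0 : ℤ) : ℂ) + ((h 1 1 : ℤ) : ℂ) * ((g 1 0 : ℤ) : ℂ) =
          ((g 1 0 : ℤ) : ℂ) := by
        have := congrArg (fun x : ℤ => (x : ℂ)) h2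
        push_cast at this
        linear_combination this
      have h3' : ((h 1 0 : ℤ) : ℂ) * ((g 0 1 : ℤ) : ℂ) + ((h 1 1 : ℤ) : ℂ) * ((g 1 1 : ℤ) : ℂ) =
          ((g 1 0 : ℤ) : ℂ) * k + ((g 1 1 : ℤ) : ℂ) := by
        have := congrArg (fun x : ℤ => (x : ℂ)) h3
        push_cast at this
        linear_combination this
      rw [act_T]
      linear_combination ((h 1 0 : ℤ) : ℂ) * h1 + z * h2' + h3'
    rw [div_eq_div_iff (pow_ne_zero 2 hd') (pow_ne_zero 2 hd), ← hco]
    ring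
  · have hz' : ¬ 0 < (z + ((N : ℝ) : ℂ)).im := by rw [him]; exact hz
    unfold slash
    rw [if_neg hz, if_neg hz']

lemma diff_slash (ha : IsForm N a) (g : SL(2, ℤ)) {z : ℂ} (hz : 0 < z.im) :
    DifferentiableAt ℂ (slash a g) z := by
  have h1 : DifferentiableAt ℂ (fun z => fser a (act g z) /
      (((g 1 0 : ℤ) : ℂ) * z + ((g 1 1 : ℤ) : ℂ)) ^ 2) z := by
    have h2 : DifferentiableAt ℂ (act g) z := (hasDerivAt_mob (det_real g) hz).differentiableAt
    have h3 : DifferentiableAt ℂ (fser a) (act g z) :=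
      (diffOn_fser ha).differentiableAt (isOpen_H.mem_nhds (act_im_pos g hz))
    have h4 : DifferentiableAt ℂ (fun z => fser a (act g z)) z := h3.comp z h2
    refine h4.div (by fun_prop) (pow_ne_zero 2 (den_ne' g hz))
  refine h1.congr_of_eventuallyEq ?_
  filter_upwards [isOpen_H.mem_nhds hz] with w hw
  exact slash_eq g hw

lemma norm_slash_le (ha : IsForm N a) {B : ℝ}
    (hB : ∀ τ : ℂ, 0 < τ.im → τ.im * ‖fser a τ‖ ≤ B) (g : SL(2, ℤ)) {z : ℂ} (hz : 0 < z.im) :
    ‖slash a g z‖ ≤ B / z.im := by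
  rw [le_div_iff₀ hz, mul_comm, norm_slash g hz]
  exact hB _ (act_im_pos g hz)

lemma im_tendsto : Tendsto Complex.im (comap Complex.im atTop) atTop := tendsto_comap

lemma slash_zero (ha : IsForm N a) (g : SL(2, ℤ)) :
    ZeroAtFilter (comap Complex.im atTop) (slash a g) := by
  obtain ⟨B, hB⟩ := ha.bounded
  unfold ZeroAtFilter
  rw [tendsto_zero_iff_norm_tendsto_zero]
  have h1 : Tendsto (fun z : ℂ => B / z.im) (comap Complex.im atTop) (𝓝 0) :=
    (tendsto_const_nhds.div_atTop im_tendsto)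
  refine squeeze_zero' (Eventually.of_forall fun z => norm_nonneg _) ?_ h1
  filter_upwards [im_tendsto.eventually_gt_atTop 0] with z hz
  exact norm_slash_le ha hB g hz

lemma slash_decay (hN : 1 ≤ N) (ha : IsForm N a) (g : SL(2, ℤ)) :
    slash a g =O[comap Complex.im atTop] fun z => Real.exp (-2 * Real.pi * z.im / N) := by
  have hN0 : (0 : ℝ) < N := by exact_mod_cast hN
  have h1 := exp_decay_of_zero_at_inf hN0 (slash_periodic ha g)
    (by
      filter_upwards [im_tendsto.eventually_gt_atTop 0] with z hz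
      exact diff_slash ha g hz) (slash_zero ha g)
  exact h1

/-- `Im(z) |(f | g)(z)|` tends to zero at the cusp. -/
lemma im_slash_tendsto (hN : 1 ≤ N) (ha : IsForm N a) (g : SL(2, ℤ)) :
    Tendsto (fun z : ℂ => z.im * ‖slash a g z‖) (comap Complex.im atTop) (𝓝 0) := by
  have hN0 : (0 : ℝ) < N := by exact_mod_cast hN
  obtain ⟨C, hC⟩ := (slash_decay hN ha g).bound
  have h2 : Tendsto (fun y : ℝ => y * Real.exp (-(2 * Real.pi / N) * y)) atTop (𝓝 0) := by
    have := Real.tendsto_pow_mul_exp_neg_atTop_nhds_zero 1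
    have h3 : 0 < 2 * Real.pi / (N : ℝ) := by positivity
    have h4 := this.comp (tendsto_id.const_mul_atTop h3)
    have h5 := h4.const_mul (2 * Real.pi / (N : ℝ))⁻¹
    rw [mul_zero] at h5
    refine h5.congr (fun y => ?_)
    simp only [Function.comp, id, pow_one]
    rw [neg_mul]
    field_simp
  have h6 := (h2.comp im_tendsto).const_mul |C|
  rw [mul_zero] at h6
  refine squeeze_zero' ?_ ?_ h6
  · filter_upwards [im_tendsto.eventually_gt_atTop 0] with z hz
    positivity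
  · filter_upwards [im_tendsto.eventually_gt_atTop 0, hC] with z hz h
    have h7 : ‖slash a g z‖ ≤ |C| * Real.exp (-2 * Real.pi * z.im / N) := by
      refine h.trans ?_
      rw [Real.norm_eq_abs, abs_of_pos (Real.exp_pos _)]
      gcongr
      exact le_abs_self C
    simp only [Function.comp]
    calc z.im * ‖slash a g z‖ ≤ z.im * (|C| * Real.exp (-2 * Real.pi * z.im / N)) := by gcongr
      _ = |C| * (z.im * Real.exp (-(2 * Real.pi / N) * z.im)) := by
          rw [show -2 * Real.pi * z.im / N = -(2 * Real.pi / N) * z.im by ring]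
          ring

end Pool.Agent.K4H67.TV
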