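import Pool.Agent.K4H67.TV.Hecke
import Mathlib.NumberTheory.ModularForms.CongruenceSubgroups

/-!
# The strict bound for the Hecke eigenvalues at good primes
-/

set_option autoImplicit false

open Complex Filter Topology Matrix.SpecialLinearGroup MatrixGroups Finset

namespace Pool.Agent.K4H67.TV

open Pool.Agent.TH133.SH

variable {N : ℕ} {a : ℕ → ℤ}

/-- `Im(τ) |f(τ)|` -/
noncomputable def phi (a : ℕ → ℤ) (τ : ℂ) : ℝ := τ.im * ‖fser a τ‖

lemma phi_act (ha : IsForm N a) {g : SL(2, ℤ)} (hg : InG N g) {z : ℂ} (hz : 0 < z.im) :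
    phi a (act g z) = phi a z := by
  unfold phi
  rw [im_act g hz, fser_act ha hg hz, norm_mul, norm_pow]
  have := norm_pos_iff.2 (den_ne' g hz)
  field_simp

lemma coe_smul' (g : SL(2, ℤ)) (w : UpperHalfPlane) :
    ((g • w : UpperHalfPlane) : ℂ) = act g (w : ℂ) := by
  rw [UpperHalfPlane.specialLinearGroup_apply]
  unfold act mob
  simp

lemma phi_continuousOn (ha : IsForm N a) : ContinuousOn (phi a) {w : ℂ | 0 < w.im} := by
  unfold phi
  exact Complex.continuous_im.continuousOn.mul (diffOn_fser ha).continuousOn.norm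

lemma phi_rep_tendsto (hN : 1 ≤ N) (ha : IsForm N a) (g : SL(2, ℤ)) {ε : ℝ} (hε : 0 < ε) :
    ∃ T : ℝ, ∀ z : ℂ, 0 < z.im → T < z.im → phi a (act g z) < ε := by
  have h1 := (im_slash_tendsto hN ha g).eventually (gt_mem_nhds hε)
  rw [eventually_comap] at h1
  obtain ⟨T, hT⟩ := eventually_atTop.1 h1
  refine ⟨T, fun z hz hTz => ?_⟩
  have h2 := hT z.im hTz.le z rfl
  rw [norm_slash g hz] at h2
  exact h2

lemma exists_max (hN : 1 ≤ N) (ha : IsForm N a) (h0 : ∃ τ : ℂ, 0 < τ.im ∧ fser a τ ≠ 0) :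
    ∃ τ₀ : ℂ, 0 < τ₀.im ∧ 0 < phi a τ₀ ∧ ∀ τ : ℂ, 0 < τ.im → phi a τ ≤ phi a τ₀ := by
  have : NeZero N := ⟨by omega⟩
  obtain ⟨z₁, hz₁, hf₁⟩ := h0
  have hε : 0 < phi a z₁ := mul_pos hz₁ (norm_pos_iff.2 hf₁)
  have : Fintype (SL(2, ℤ) ⧸ CongruenceSubgroup.Gamma0 N) := Subgroup.fintypeQuotientOfFiniteIndex
  set rep : SL(2, ℤ) ⧸ CongruenceSubgroup.Gamma0 N → SL(2, ℤ) := fun q => (Quotient.out q)⁻¹ with hrep
  have hcov : ∀ z : ℂ, 0 < z.im → ∃ q, ∃ w : UpperHalfPlane, w ∈ ModularGroup.fd ∧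
      phi a z = phi a (act (rep q) w) := by
    intro z hz
    obtain ⟨w₀, hw₀⟩ : ∃ w₀ : UpperHalfPlane, (w₀ : ℂ) = z := ⟨⟨z, hz⟩, rfl⟩
    obtain ⟨g, hg⟩ := ModularGroup.exists_smul_mem_fd w₀
    obtain ⟨h, hh⟩ := QuotientGroup.mk_out_eq_mul (CongruenceSubgroup.Gamma0 N) g
    refine ⟨(g : SL(2, ℤ) ⧸ CongruenceSubgroup.Gamma0 N), g • w₀, hg, ?_⟩
    have h1 : rep (g : SL(2, ℤ) ⧸ CongruenceSubgroup.Gamma0 N) = (h : SL(2, ℤ))⁻¹ * g⁻¹ := by
      rw [hrep]
      change (Quotient.out _)⁻¹ = _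
      rw [hh, mul_inv_rev]
    have h2 : InG N ((h : SL(2, ℤ))⁻¹) := by
      apply InG.inv
      have := h.2
      rw [CongruenceSubgroup.Gamma0_mem] at this
      exact (ZMod.intCast_zmod_eq_zero_iff_dvd _ _).1 this
    have hw : 0 < (act g z).im := act_im_pos g hz
    rw [h1, coe_smul', hw₀, act_mul _ _ hw, phi_act ha h2 (act_im_pos _ hw), ← act_mul _ _ hz, inv_mul_cancel, act_one]
  choose Tq hTq using fun q => phi_rep_tendsto hN ha (rep q) hε
  obtain ⟨T, hT⟩ : ∃ T : ℝ, ∀ q, Tq q ≤ T := by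
    obtain ⟨T, hT⟩ := (Set.finite_range Tq).bddAbove
    exact ⟨T, fun q => hT (Set.mem_range_self q)⟩
  set K : Set UpperHalfPlane := ModularGroup.truncatedFundamentalDomain T with hK
  have hKc : IsCompact K := ModularGroup.isCompact_truncatedFundamentalDomain T
  set KK : Set ℂ := ⋃ q, (fun w : UpperHalfPlane => act (rep q) w) '' K with hKK
  have hKKc : IsCompact KK := by
    refine isCompact_iUnion fun q => hKc.image ?_
    rw [continuous_iff_continuousAt]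
    intro w
    have h1 : ContinuousAt (act (rep q)) (w : ℂ) :=
      (hasDerivAt_mob (det_real (rep q)) w.im_pos).continuousAt
    exact ContinuousAt.comp (f := fun w : UpperHalfPlane => (w : ℂ)) h1
      UpperHalfPlane.continuous_coe.continuousAt
  have hKKH : ∀ z ∈ KK, 0 < z.im := by
    intro z hz
    rw [hKK, Set.mem_iUnion] at hz
    obtain ⟨q, w, -, rfl⟩ := hz
    exact act_im_pos _ w.im_pos
  have hmem : ∀ z : ℂ, 0 < z.im → phi a z₁ ≤ phi a z → ∃ z' ∈ KK, phi a z' = phi a z := by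
    intro z hz hzz
    obtain ⟨q, w, hw, hwz⟩ := hcov z hz
    refine ⟨act (rep q) w, ?_, hwz.symm⟩
    rw [hKK, Set.mem_iUnion]
    refine ⟨q, w, ⟨hw, ?_⟩, rfl⟩
    by_contra hc
    push Not at hc
    have h1 := hTq q w w.im_pos ((hT q).trans_lt hc)
    rw [← hwz] at h1
    linarith
  obtain ⟨z₂, hz₂, hz₂'⟩ := hmem z₁ hz₁ le_rfl
  obtain ⟨τ₀, hτ₀, hmax⟩ := hKKc.exists_isMaxOn ⟨z₂, hz₂⟩
    ((phi_continuousOn ha).mono (fun z hz => hKKH z hz))
  have h12 : phi a z₁ ≤ phi a τ₀ := by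
    rw [← hz₂']
    exact hmax hz₂
  refine ⟨τ₀, hKKH _ hτ₀, hε.trans_le h12, fun τ hτ => ?_⟩
  by_cases hc : phi a z₁ ≤ phi a τ
  · obtain ⟨z', hz', h3⟩ := hmem τ hτ hc
    rw [← h3]
    exact hmax hz'
  · push Not at hc
    exact hc.le.trans h12

/-- The form is not zero. -/
lemma fser_ne (ha : IsNewform N a) : ∃ τ : ℂ, 0 < τ.im ∧ fser a τ ≠ 0 := by
  by_contra hc
  push Not at hc
  have hf := ha.toIsForm
  have hI : ∀ y : ℝ, ((y : ℂ) * Complex.I).im = y := fun y => by simp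
  have hee : ∀ (k : ℕ) (y : ℝ), ‖ee k ((y : ℂ) * Complex.I)‖ = Real.exp (-(2 * Real.pi * k * y)) := by
    intro k y
    unfold ee
    rw [Complex.norm_exp]
    congr 1
    simp [Complex.mul_re, Complex.mul_im]
  have h1 : Tendsto (fun y : ℝ => ∑' k : ℕ, (a k : ℂ) * ee k ((y : ℂ) * Complex.I) *
      (Real.exp (2 * Real.pi * y) : ℂ)) atTop (𝓝 (∑' k : ℕ, if k = 1 then (1 : ℂ) else 0)) := by
    have hsum := (hf.summable ((1 : ℝ) * Complex.I) (by rw [hI]; norm_num)).norm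
    refine tendsto_tsum_of_dominated_convergence (hsum.mul_right (Real.exp (2 * Real.pi))) ?_ ?_
    · intro k
      rcases Nat.eq_zero_or_pos k with rfl | hk
      · simp [hf.zero]
      rcases Nat.lt_or_ge 1 k with hk1 | hk1
      · rw [if_neg (by omega), tendsto_zero_iff_norm_tendsto_zero]
        have h2 : Tendsto (fun y : ℝ => |(a k : ℝ)| * Real.exp (-(2 * Real.pi * (k - 1) * y)))
            atTop (𝓝 0) := by
          have hk2 : (1 : ℝ) < k := by exact_mod_cast hk1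
          have h3 : 0 < 2 * Real.pi * ((k : ℝ) - 1) := by
            have := Real.pi_pos
            have : 0 < (k : ℝ) - 1 := by linarith
            positivity
          have h4 := Real.tendsto_exp_neg_atTop_nhds_zero.comp (tendsto_id.const_mul_atTop h3)
          have h5 := h4.const_mul |(a k : ℝ)|
          rw [mul_zero] at h5
          exact h5
        refine h2.congr (fun y => ?_)
        rw [norm_mul, norm_mul, hee, Complex.norm_intCast, Complex.norm_real, Real.norm_eq_abs,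
          abs_of_pos (Real.exp_pos _), mul_assoc |(a k : ℝ)|, ← Real.exp_add]
        congr 2
        ring
      · obtain rfl : k = 1 := by omega
        rw [if_pos rfl]
        refine tendsto_const_nhds.congr (fun y => ?_)
        rw [ha.one]
        unfold ee
        rw [Complex.ofReal_exp, mul_assoc, ← Complex.exp_add]
        have : 2 * (Real.pi : ℂ) * Complex.I * ((1 : ℕ) : ℂ) * ((y : ℂ) * Complex.I) +
            ((2 * Real.pi * y : ℝ) : ℂ) = 0 := by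
          push_cast
          linear_combination (2 * (Real.pi : ℂ) * y) * Complex.I_mul_I
        rw [this]
        simp
    · filter_upwards [eventually_ge_atTop (1 : ℝ)] with y hy k
      rcases Nat.eq_zero_or_pos k with rfl | hk
      · simp [hf.zero]
      have hk1 : (1 : ℝ) ≤ k := by exact_mod_cast hk
      have hpi := Real.pi_pos
      have h6 := hee k 1
      have h7 : (2 * (Real.pi : ℂ) * Complex.I * (k : ℂ) * (((1 : ℝ) : ℂ) * Complex.I)) =
          (2 * (Real.pi : ℂ) * Complex.I * (k : ℂ) * (((1 : ℝ) : ℂ) * Complex.I)) := rfl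
      rw [norm_mul, norm_mul, hee, norm_mul]
      change _ ≤ ‖(a k : ℂ)‖ * ‖ee k (((1 : ℝ) : ℂ) * Complex.I)‖ * Real.exp (2 * Real.pi)
      rw [h6, Complex.norm_real, Real.norm_eq_abs, abs_of_pos (Real.exp_pos _),
        mul_assoc ‖(a k : ℂ)‖, mul_assoc ‖(a k : ℂ)‖, ← Real.exp_add, ← Real.exp_add]
      refine mul_le_mul_of_nonneg_left (Real.exp_le_exp.2 ?_) (norm_nonneg _)
      have h8 : 0 ≤ (y - 1) * ((k : ℝ) - 1) := mul_nonneg (by linarith) (by linarith)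
      have h9 := mul_nonneg hpi.le h8
      nlinarith
  have h2 : ∀ y : ℝ, 0 < y → ∑' k : ℕ, (a k : ℂ) * ee k ((y : ℂ) * Complex.I) *
      (Real.exp (2 * Real.pi * y) : ℂ) = 0 := by
    intro y hy
    rw [tsum_mul_right]
    have h3 := hc ((y : ℂ) * Complex.I) (by rw [hI]; exact hy)
    unfold fser at h3
    change ∑' k : ℕ, (a k : ℂ) * ee k ((y : ℂ) * Complex.I) = 0 at h3
    rw [h3, zero_mul]
  rw [tsum_ite_eq] at h1
  have h3 : Tendsto (fun y : ℝ => ∑' k : ℕ, (a k : ℂ) * ee k ((y : ℂ) * Complex.I) *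
      (Real.exp (2 * Real.pi * y) : ℂ)) atTop (𝓝 0) := by
    refine tendsto_const_nhds.congr' ?_
    filter_upwards [eventually_gt_atTop (0 : ℝ)] with y hy
    exact (h2 y hy).symm
  exact one_ne_zero (tendsto_nhds_unique h1 h3)

/-- The Hecke relation for the form. -/
lemma hecke_f (ha : IsNewform N a) {ℓ : ℕ} (hℓ : ℓ.Prime) (hℓN : ¬ ℓ ∣ N) {τ : ℂ} (hτ : 0 < τ.im) :
    ∑ j ∈ range ℓ, fser a ((τ + j) / ℓ) * (ℓ : ℂ)⁻¹ + fser a (ℓ * τ) * ℓ =
      (a ℓ : ℂ) * fser a τ := by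
  have hf := ha.toIsForm
  have hℓ0 : (0 : ℝ) < ℓ := by exact_mod_cast hℓ.pos
  have hd : ∀ z : ℂ, 0 < z.im → HasDerivAt (Fser a) (2 * (Real.pi : ℂ) * Complex.I * fser a z) z :=
    fun z hz => hasDerivAt_Fser hf.zero hf.summable hz
  have him1 : ∀ j : ℕ, 0 < ((τ + j) / ℓ).im := fun j => by
    rw [Complex.div_natCast_im]
    simp only [Complex.add_im, Complex.natCast_im, add_zero]
    positivity
  have him2 : 0 < ((ℓ : ℂ) * τ).im := by
    simp
    positivity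
  have h1 : HasDerivAt (fun z => ∑ j ∈ range ℓ, Fser a ((z + j) / ℓ) + Fser a (ℓ * z))
      (∑ j ∈ range ℓ, 2 * (Real.pi : ℂ) * Complex.I * fser a ((τ + j) / ℓ) * (ℓ : ℂ)⁻¹ +
        2 * (Real.pi : ℂ) * Complex.I * fser a (ℓ * τ) * ℓ) τ := by
    refine HasDerivAt.add ?_ ?_
    · refine HasDerivAt.fun_sum fun j _ => ?_
      have h2 : HasDerivAt (fun z : ℂ => (z + j) / ℓ) (ℓ : ℂ)⁻¹ τ := by
        simpa using ((hasDerivAt_id τ).add_const (j : ℂ)).div_const (ℓ : ℂ)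
      exact (hd _ (him1 j)).comp τ h2
    · have h2 : HasDerivAt (fun z : ℂ => (ℓ : ℂ) * z) (ℓ : ℂ) τ := by
        simpa using (hasDerivAt_id τ).const_mul (ℓ : ℂ)
      exact (hd _ him2).comp τ h2
  have h2 : HasDerivAt (fun z => (a ℓ : ℂ) * Fser a z)
      ((a ℓ : ℂ) * (2 * (Real.pi : ℂ) * Complex.I * fser a τ)) τ := (hd τ hτ).const_mul _
  have h3 : (fun z => ∑ j ∈ range ℓ, Fser a ((z + j) / ℓ) + Fser a (ℓ * z)) =ᶠ[𝓝 τ]
      (fun z => (a ℓ : ℂ) * Fser a z) := by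
    filter_upwards [isOpen_H.mem_nhds hτ] with z hz
    exact hecke_F ha hℓ hℓN hz
  have h4 := (h2.congr_of_eventuallyEq h3).unique h1
  have hpi : (2 * (Real.pi : ℂ) * Complex.I) ≠ 0 := by simp [Real.pi_ne_zero]
  apply mul_left_cancel₀ hpi
  rw [show 2 * (Real.pi : ℂ) * Complex.I * ((a ℓ : ℂ) * fser a τ) =
    (a ℓ : ℂ) * (2 * (Real.pi : ℂ) * Complex.I * fser a τ) by ring, h4, mul_add, mul_sum]
  congr 1
  · exact sum_congr rfl fun j _ => by ring
  · ring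

lemma hecke_phi (ha : IsNewform N a) {ℓ : ℕ} (hℓ : ℓ.Prime) (hℓN : ¬ ℓ ∣ N) {τ : ℂ}
    (hτ : 0 < τ.im) :
    |(a ℓ : ℝ)| * phi a τ ≤ ∑ j ∈ range ℓ, phi a ((τ + j) / ℓ) + phi a (ℓ * τ) := by
  have hℓ0 : (0 : ℝ) < ℓ := by exact_mod_cast hℓ.pos
  have h1 := congrArg norm (hecke_f ha hℓ hℓN hτ)
  rw [norm_mul, Complex.norm_intCast] at h1
  unfold phi
  rw [show |(a ℓ : ℝ)| * (τ.im * ‖fser a τ‖) = τ.im * (|(a ℓ : ℝ)| * ‖fser a τ‖) by ring, ← h1]
  calc τ.im * ‖∑ j ∈ range ℓ, fser a ((τ + j) / ℓ) * (ℓ : ℂ)⁻¹ + fser a (ℓ * τ) * ℓ‖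
      ≤ τ.im * (∑ j ∈ range ℓ, ‖fser a ((τ + j) / ℓ) * (ℓ : ℂ)⁻¹‖ + ‖fser a (ℓ * τ) * ℓ‖) := by
        gcongr
        exact (norm_add_le _ _).trans (add_le_add_left (norm_sum_le _ _) _)
    _ = _ := by
        rw [mul_add, mul_sum]
        congr 1
        · refine sum_congr rfl fun j _ => ?_
          rw [norm_mul, norm_inv, Complex.norm_natCast, Complex.div_natCast_im]
          simp only [Complex.add_im, Complex.natCast_im, add_zero]
          field_simp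
        · rw [norm_mul, Complex.norm_natCast]
          simp
          ring

theorem abs_le (hN : 1 ≤ N) (ha : IsNewform N a) {ℓ : ℕ} (hℓ : ℓ.Prime) (hℓN : ¬ ℓ ∣ N) :
    |(a ℓ : ℝ)| ≤ ℓ + 1 := by
  obtain ⟨τ₀, hτ₀, hpos, hmax⟩ := exists_max hN ha.toIsForm (fser_ne ha)
  have hℓ0 : (0 : ℝ) < ℓ := by exact_mod_cast hℓ.pos
  have him1 : ∀ j : ℕ, 0 < ((τ₀ + j) / ℓ).im := fun j => by
    rw [Complex.div_natCast_im]
    simp only [Complex.add_im, Complex.natCast_im, add_zero]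
    positivity
  have him2 : 0 < ((ℓ : ℂ) * τ₀).im := by
    simp
    positivity
  have h1 := hecke_phi ha hℓ hℓN hτ₀
  have h2 : ∑ j ∈ range ℓ, phi a ((τ₀ + j) / ℓ) ≤ ℓ * phi a τ₀ := by
    refine (sum_le_sum fun j _ => hmax _ (him1 j)).trans ?_
    simp
  have h3 := hmax _ him2
  have h4 : |(a ℓ : ℝ)| * phi a τ₀ ≤ (ℓ + 1) * phi a τ₀ := by linarith
  exact le_of_mul_le_mul_right h4 hpos

theorem ne_add_one (hN : 1 ≤ N) (ha : IsNewform N a) {ℓ : ℕ} (hℓ : ℓ.Prime) (hℓN : ¬ ℓ ∣ N) :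
    a ℓ ≠ ℓ + 1 := by
  intro heq
  obtain ⟨τ₀, hτ₀, hpos, hmax⟩ := exists_max hN ha.toIsForm (fser_ne ha)
  have hℓ0 : (0 : ℝ) < ℓ := by exact_mod_cast hℓ.pos
  have hℓ1 : (1 : ℝ) < ℓ := by exact_mod_cast hℓ.one_lt
  have hk : ∀ k : ℕ, 0 < ((ℓ : ℂ) ^ k * τ₀).im ∧ phi a ((ℓ : ℂ) ^ k * τ₀) = phi a τ₀ := by
    intro k
    induction k with
    | zero => simpa using hτ₀
    | succ k ih =>
      obtain ⟨hpos', heq'⟩ := ih
      set z : ℂ := (ℓ : ℂ) ^ k * τ₀ with hz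
      have e : (ℓ : ℂ) ^ (k + 1) * τ₀ = ℓ * z := by rw [hz]; ring
      have him1 : ∀ j : ℕ, 0 < ((z + j) / ℓ).im := fun j => by
        rw [Complex.div_natCast_im]
        simp only [Complex.add_im, Complex.natCast_im, add_zero]
        positivity
      have him2 : 0 < ((ℓ : ℂ) * z).im := by
        simp only [Complex.mul_im, Complex.natCast_re, Complex.natCast_im, zero_mul, add_zero]
        positivity
      rw [e]
      refine ⟨him2, le_antisymm (hmax _ him2) ?_⟩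
      have h1 := hecke_phi ha hℓ hℓN hpos'
      have h2 : ∑ j ∈ range ℓ, phi a ((z + j) / ℓ) ≤ ℓ * phi a τ₀ := by
        refine (sum_le_sum fun j _ => hmax _ (him1 j)).trans ?_
        simp
      rw [heq', heq] at h1
      push_cast at h1
      rw [abs_of_pos (by positivity)] at h1
      linarith
  obtain ⟨T, hT⟩ := phi_rep_tendsto hN ha.toIsForm 1 hpos
  have h5 : Tendsto (fun k : ℕ => (ℓ : ℝ) ^ k * τ₀.im) atTop atTop :=
    (tendsto_pow_atTop_atTop_of_one_lt hℓ1).atTop_mul_const hτ₀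
  obtain ⟨k, hkT⟩ := (h5.eventually_gt_atTop T).exists
  have him : ((ℓ : ℂ) ^ k * τ₀).im = (ℓ : ℝ) ^ k * τ₀.im := by
    have : ((ℓ : ℂ) ^ k * τ₀) = (((ℓ : ℝ) ^ k : ℝ) : ℂ) * τ₀ := by push_cast; rfl
    rw [this, Complex.im_ofReal_mul]
  have h6 := hT _ (hk k).1 (by rw [him]; exact hkT)
  rw [act_one, (hk k).2] at h6
  exact lt_irrefl _ h6

end Pool.Agent.K4H67.TV
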