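import Pool.Agent.K4H67.TV.Val
import Pool.Agent.K4H67.TV.Strict

/-!
# The question for the Shimura map and twisted central values
-/

set_option autoImplicit false

open Complex Filter Topology Matrix.SpecialLinearGroup MatrixGroups Finset DirichletCharacter

namespace Pool.Agent.K4H67.TV

open Pool.Agent.TH133.SH

/-- The bound `9 * 64 ^ ω(N) * N` for the conductors. -/
def condBound (N : ℕ) : ℕ := 9 * 64 ^ N.primeFactors.card * N

/-- There are constants `κ`, `C` such that, for all newforms of all levels `N` and all primitive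
characters `χ` whose conductor `d` is at most `D N` and prime to `N`, the central value `L(f, χ, 1)`
is at most `C N ^ κ Ω₁` if `χ` is even and at most `C N ^ κ Im(Ω₂)` if `χ` is odd. -/
def ValueBound (D : ℕ → ℕ) : Prop :=
  ∃ κ : ℝ, 0 < κ ∧ ∃ C : ℝ, 0 < C ∧ ∀ N : ℕ, 1 ≤ N → ∀ a : ℕ → ℤ, IsNewform N a →
    ∀ Ω₁ Ω₂ : ℂ, IsBasis N a Ω₁ Ω₂ → ∀ d : ℕ, 1 ≤ d → d ≤ D N → d.Coprime N →
      ∀ χ : DirichletCharacter ℂ d, χ.IsPrimitive → ∀ L : ℂ, HasLVal a χ L →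
        (χ.Even → ‖L‖ ≤ C * (N : ℝ) ^ κ * Ω₁.re) ∧ (χ.Odd → ‖L‖ ≤ C * (N : ℝ) ^ κ * Ω₂.im)

/-- The same for all conductors `d` prime to `N`, with an additional factor `√d (1 + log d)`. -/
def ValueGrowth : Prop :=
  ∃ κ : ℝ, 0 < κ ∧ ∃ C : ℝ, 0 < C ∧ ∀ N : ℕ, 1 ≤ N → ∀ a : ℕ → ℤ, IsNewform N a →
    ∀ Ω₁ Ω₂ : ℂ, IsBasis N a Ω₁ Ω₂ → ∀ d : ℕ, 1 ≤ d → d.Coprime N →
      ∀ χ : DirichletCharacter ℂ d, χ.IsPrimitive → ∀ L : ℂ, HasLVal a χ L →
        (χ.Even → ‖L‖ ≤ C * (N : ℝ) ^ κ * (√(d : ℝ) * (1 + Real.log d)) * Ω₁.re) ∧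
        (χ.Odd → ‖L‖ ≤ C * (N : ℝ) ^ κ * (√(d : ℝ) * (1 + Real.log d)) * Ω₂.im)

variable {N : ℕ} {a : ℕ → ℤ} {Ω₁ Ω₂ : ℂ}

lemma not_level_one (ha : IsForm 1 a) (hb : IsBasis 1 a Ω₁ Ω₂) : False := by
  obtain ⟨p, q, r, s, h1, h2, h3⟩ := hb.mem₂
  have h : (Hs a (mk p q r s h1)).im = 0 := level_one (isCuspHom ha Complex.imLm) (mk p q r s h1)
  rw [Hs_mk, ← h3] at h
  exact hb.im₂.ne' h

lemma two_le (hN : 1 ≤ N) (ha : IsForm N a) (hb : IsBasis N a Ω₁ Ω₂) : 2 ≤ N := by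
  rcases Nat.lt_or_ge 1 N with h | h
  · exact h
  · obtain rfl : N = 1 := by omega
    exact (not_level_one ha hb).elim

lemma Uv_add_int (x : ℚ) (k : ℤ) : Uv a (x + k) = Uv a x := by
  unfold Uv
  congr 1
  funext y
  rw [← Fser_add_int ((x : ℂ) + (y : ℂ) * Complex.I) k]
  congr 1
  push_cast
  ring

lemma prim_inv {d : ℕ} {χ : DirichletCharacter ℂ d} (hχ : χ.IsPrimitive) : (χ⁻¹).IsPrimitive := by
  rw [isPrimitive_def, conductor_inv]
  exact hχ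

lemma even_inv {d : ℕ} {χ : DirichletCharacter ℂ d} (hχ : χ.Even) : (χ⁻¹).Even := by
  have h : χ (-1) = 1 := hχ
  change χ⁻¹ (-1) = 1
  rw [MulChar.inv_apply_eq_inv', h, inv_one]

lemma odd_inv {d : ℕ} {χ : DirichletCharacter ℂ d} (hχ : χ.Odd) : (χ⁻¹).Odd := by
  have h : χ (-1) = -1 := hχ
  change χ⁻¹ (-1) = -1
  rw [MulChar.inv_apply_eq_inv', h]
  norm_num

lemma norm_gauss {d : ℕ} [NeZero d] {χ : DirichletCharacter ℂ d} (hχ : χ.IsPrimitive) :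
    ‖gaussSum χ (ZMod.stdAddChar : AddChar (ZMod d) ℂ)‖ = √(d : ℝ) := by
  rw [← norm_sq_gaussSum hχ, Real.sqrt_sq (norm_nonneg _)]

lemma gauss_ne {d : ℕ} [NeZero d] {χ : DirichletCharacter ℂ d} (hχ : χ.IsPrimitive) :
    gaussSum χ (ZMod.stdAddChar : AddChar (ZMod d) ℂ) ≠ 0 := by
  rw [← norm_pos_iff, norm_gauss hχ, Real.sqrt_pos]
  exact_mod_cast NeZero.pos d

/-- The twisted central values exist. -/
theorem exists_lval (hN : 1 ≤ N) (ha : IsForm N a) {d : ℕ} (hd : 1 ≤ d) (hdN : d.Coprime N)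
    {χ : DirichletCharacter ℂ d} (hχ : χ.IsPrimitive) : ∃ L : ℂ, HasLVal a χ L := by
  have : NeZero d := ⟨by omega⟩
  refine ⟨(gaussSum χ⁻¹ (ZMod.stdAddChar : AddChar (ZMod d) ℂ))⁻¹ * Sm (Uv a) d χ⁻¹,
    (lval hN ha hdN hχ).2 ?_⟩
  rw [← mul_assoc, mul_inv_cancel₀ (gauss_ne (prim_inv hχ)), one_mul]

/-- From the central values to the boundary values. -/
lemma Uv_bound (hN : 1 ≤ N) (ha : IsNewform N a) (hb : IsBasis N a Ω₁ Ω₂) {D : ℕ} {X : ℝ}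
    (hX : 0 ≤ X)
    (h : ∀ d : ℕ, 1 ≤ d → d ≤ D → d.Coprime N → ∀ χ : DirichletCharacter ℂ d, χ.IsPrimitive →
      ∀ L : ℂ, HasLVal a χ L → (χ.Even → ‖L‖ ≤ X * Ω₁.re) ∧ (χ.Odd → ‖L‖ ≤ X * Ω₂.im))
    (m : ℕ) (hm : 0 < m) (hmD : m ≤ D) (hmN : m.Coprime N) (b : ℕ) (hbm : b.Coprime m) :
    |(Uv a ((b : ℚ) / m)).re| ≤ (m : ℝ) ^ 3 * (√(D : ℝ) * (X * Ω₁.re)) ∧
    |(Uv a ((b : ℚ) / m)).im| ≤ (m : ℝ) ^ 3 * (√(D : ℝ) * (X * Ω₂.im)) := by
  have hf := ha.toIsForm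
  have h₁ := hb.re₁
  have h₂ := hb.im₂
  have key : ∀ (e : ℕ) [NeZero e], e ≤ D → e.Coprime N → ∀ χ : DirichletCharacter ℂ e,
      χ.IsPrimitive → (χ.Even → ‖Sm (Uv a) e χ‖ ≤ √(D : ℝ) * (X * Ω₁.re)) ∧
        (χ.Odd → ‖Sm (Uv a) e χ‖ ≤ √(D : ℝ) * (X * Ω₂.im)) := by
    intro e _ heD heN χ hχ
    obtain ⟨L, hL⟩ := exists_lval hN hf (NeZero.pos e) heN (prim_inv hχ)
    have h1 := (lval hN hf heN (prim_inv hχ)).1 hL
    rw [inv_inv] at h1
    have h2 := h e (NeZero.pos e) heD heN χ⁻¹ (prim_inv hχ) L hL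
    rw [← h1, norm_mul, norm_gauss hχ]
    have h3 : √(e : ℝ) ≤ √(D : ℝ) := Real.sqrt_le_sqrt (by exact_mod_cast heD)
    exact ⟨fun hc => mul_le_mul h3 (h2.1 (even_inv hc)) (norm_nonneg _) (Real.sqrt_nonneg _),
      fun hc => mul_le_mul h3 (h2.2 (odd_inv hc)) (norm_nonneg _) (Real.sqrt_nonneg _)⟩
  have hR := val_bound (heckeR hN ha (fun ℓ h1 h2 => abs_le hN ha h1 h2)) (D := D)
    (X := √(D : ℝ) * (X * Ω₁.re)) (by positivity) (by
      intro e _ heD heN χ hχ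
      rcases χ.even_or_odd with hc | hc
      · rw [(Sm_even hN hf heN χ hc).1]
        exact (key e heD heN χ hχ).1 hc
      · rw [(Sm_odd hN hf heN χ hc).1, norm_zero]
        positivity) m hm hmD hmN b hbm
  have hI := val_bound (heckeI hN ha (fun ℓ h1 h2 => abs_le hN ha h1 h2)) (D := D)
    (X := √(D : ℝ) * (X * Ω₂.im)) (by positivity) (by
      intro e _ heD heN χ hχ
      rcases χ.even_or_odd with hc | hc
      · rw [(Sm_even hN hf heN χ hc).2, norm_zero]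
        positivity
      · rw [(Sm_odd hN hf heN χ hc).2]
        exact (key e heD heN χ hχ).2 hc) m hm hmD hmN b hbm
  unfold Rv at hR
  unfold Iv at hI
  rw [Complex.norm_real, Real.norm_eq_abs] at hR hI
  exact ⟨hR, hI⟩

/-- The value of `H` as a difference of boundary values at points `b / m` with `m` at most half of
the lower left entry. -/
lemma exists_half (hN : 2 ≤ N) (ha : IsForm N a) {g : SL(2, ℤ)} (hg : InG N g) (h0 : g 1 0 ≠ 0) :
    ∃ (m b : ℕ), 0 < m ∧ 2 * (m : ℤ) ≤ |g 1 0| ∧ m.Coprime N ∧ b.Coprime m ∧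
      Hs a g = Uv a ((b : ℚ) / m) - Uv a 0 := by
  obtain ⟨k, hk⟩ := exists_near (g 1 1) (g 1 0) h0
  set g' : SL(2, ℤ) := g * ModularGroup.T ^ k with hg'
  have ht := T_pow k
  have e10 : g' 1 0 = g 1 0 := by
    rw [hg', mul10, ht.1, ht.2.2.1]
    ring
  have e11 : g' 1 1 = g 1 1 + k * g 1 0 := by
    rw [hg', mul11, ht.2.1, ht.2.2.2]
    ring
  have hgG : InG N g' := hg.mul (inG_T k)
  have hHs : Hs a g' = Hs a g := by
    have h1 : Hs a g' = Hs a g + Hs a (ModularGroup.T ^ k) := Hs_mul ha hg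
    have h2 : Hs a (ModularGroup.T ^ k) = 0 := by
      have h3 := (isCuspHom ha Complex.reLm).zero_of_lower (g := ModularGroup.T ^ k) ht.2.2.1
      have h4 := (isCuspHom ha Complex.imLm).zero_of_lower (g := ModularGroup.T ^ k) ht.2.2.1
      exact Complex.ext h3 h4
    rw [h1, h2, add_zero]
  have hdet := det_eq g'
  have hcopN : IsCoprime (g' 1 1) (N : ℤ) := by
    obtain ⟨c, hc⟩ := hgG
    refine ⟨g' 0 0, -(g' 0 1 * c), ?_⟩
    have : g' 0 1 * g' 1 0 = g' 0 1 * c * N := by rw [hc]; ring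
    linear_combination hdet + this
  have hne : g' 1 1 ≠ 0 := by
    intro hz
    rw [hz, isCoprime_zero_left, Int.isUnit_iff] at hcopN
    omega
  have hcop : IsCoprime (g' 0 1) (g' 1 1) := ⟨-g' 1 0, g' 0 0, by linear_combination hdet⟩
  set m : ℕ := (g' 1 1).natAbs with hm
  have hm0 : 0 < m := Int.natAbs_pos.2 hne
  have hmabs : (m : ℤ) = |g' 1 1| := by rw [hm, Int.natCast_natAbs]
  -- the numerator
  obtain ⟨c, hc1, hc2⟩ : ∃ c : ℤ, IsCoprime c (m : ℤ) ∧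
      ((g' 0 1 : ℤ) : ℚ) / ((g' 1 1 : ℤ) : ℚ) = (c : ℚ) / m := by
    rcases lt_or_gt_of_ne hne with hneg | hpos
    · have e : (m : ℤ) = -(g' 1 1) := by rw [hmabs, abs_of_neg hneg]
      refine ⟨-(g' 0 1), ?_, ?_⟩
      · rw [e]
        exact hcop.neg_neg
      · have e' : (m : ℚ) = -((g' 1 1 : ℤ) : ℚ) := by exact_mod_cast e
        rw [e']
        push_cast
        rw [neg_div_neg_eq]
    · have e : (m : ℤ) = g' 1 1 := by rw [hmabs, abs_of_pos hpos]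
      refine ⟨g' 0 1, ?_, ?_⟩
      · rw [e]
        exact hcop
      · have e' : (m : ℚ) = ((g' 1 1 : ℤ) : ℚ) := by exact_mod_cast e
        rw [e']
  have hmq : (m : ℚ) ≠ 0 := by exact_mod_cast hm0.ne'
  set b : ℕ := (c % (m : ℤ)).toNat with hb
  have hb1 : (b : ℤ) = c % m := Int.toNat_of_nonneg (Int.emod_nonneg _ (by exact_mod_cast hm0.ne'))
  have hb2 : c = b + m * (c / m) := by
    rw [hb1]
    exact (Int.emod_add_mul_ediv c m).symm
  refine ⟨m, b, hm0, ?_, ?_, ?_, ?_⟩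
  · rw [hmabs, e11]
    exact hk
  · have h7 := Int.isCoprime_iff_gcd_eq_one.1 hcopN
    unfold Int.gcd at h7
    rw [Int.natAbs_natCast] at h7
    exact h7
  · rw [← Nat.isCoprime_iff_coprime]
    rw [hb2] at hc1
    exact (IsCoprime.add_mul_left_left_iff).1 hc1
  · rw [← hHs, Hs_eq_sub (by omega) ha hgG hne]
    congr 1
    rw [hc2]
    have : (c : ℚ) / m = (b : ℚ) / m + ((c / m : ℤ) : ℚ) := by
      have h5 : (c : ℚ) = b + m * ((c / m : ℤ) : ℚ) := by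
        have := congrArg (fun t : ℤ => (t : ℚ)) hb2
        push_cast at this
        exact this
      rw [div_add' _ _ _ hmq]
      congr 1
      linear_combination h5
    rw [this, Uv_add_int]

lemma coords (hb : IsBasis N a Ω₁ Ω₂) {z : ℂ} {Y : ℝ} {m n : ℤ}
    (hz : z = (m : ℂ) * Ω₁ + (n : ℂ) * Ω₂) (h1 : |z.re| ≤ Y * Ω₁.re) (h2 : |z.im| ≤ Y * Ω₂.im) :
    |(m : ℝ)| ≤ 2 * Y ∧ |(n : ℝ)| ≤ 2 * Y := by
  have hr := hb.re₁
  have hi := hb.im₂
  have h3 := hb.re₂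
  have h3' := hb.re₂'
  have him : z.im = n * Ω₂.im := by rw [hz]; simp [hb.im₁]
  have hre : z.re = m * Ω₁.re + n * Ω₂.re := by rw [hz]; simp
  rw [him, abs_mul, abs_of_pos hi] at h2
  have hn : |(n : ℝ)| ≤ Y := le_of_mul_le_mul_right h2 hi
  have hY : 0 ≤ Y := (abs_nonneg _).trans hn
  refine ⟨?_, by linarith⟩
  have h4 : |(m : ℝ) * Ω₁.re| ≤ 2 * Y * Ω₁.re := by
    have h5 : (m : ℝ) * Ω₁.re = z.re - n * Ω₂.re := by rw [hre]; ring
    rw [h5]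
    refine (abs_sub _ _).trans ?_
    have h6 : |(n : ℝ) * Ω₂.re| ≤ Y * Ω₁.re := by
      rw [abs_mul, abs_of_nonneg h3]
      exact mul_le_mul hn h3'.le h3 hY
    linarith
  rw [abs_mul, abs_of_pos hr] at h4
  exact le_of_mul_le_mul_right h4 hr

lemma re_im_le (hb : IsBasis N a Ω₁ Ω₂) {z : ℂ} {Y : ℝ} {m n : ℤ}
    (hz : z = (m : ℂ) * Ω₁ + (n : ℂ) * Ω₂) (h1 : |(m : ℝ)| ≤ Y) (h2 : |(n : ℝ)| ≤ Y) :
    |z.re| ≤ 2 * Y * Ω₁.re ∧ |z.im| ≤ 2 * Y * Ω₂.im := by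
  have hr := hb.re₁
  have hi := hb.im₂
  have h3 := hb.re₂
  have h3' := hb.re₂'
  have hY : 0 ≤ Y := (abs_nonneg _).trans h1
  have him : z.im = n * Ω₂.im := by rw [hz]; simp [hb.im₁]
  have hre : z.re = m * Ω₁.re + n * Ω₂.re := by rw [hz]; simp
  constructor
  · rw [hre]
    refine (abs_add_le _ _).trans ?_
    rw [abs_mul, abs_mul, abs_of_pos hr, abs_of_nonneg h3]
    have h4 : |(m : ℝ)| * Ω₁.re ≤ Y * Ω₁.re := mul_le_mul_of_nonneg_right h1 hr.le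
    have h5 : |(n : ℝ)| * Ω₂.re ≤ Y * Ω₁.re := mul_le_mul h2 h3'.le h3 hY
    linarith
  · rw [him, abs_mul, abs_of_pos hi]
    have h4 : |(n : ℝ)| * Ω₂.im ≤ Y * Ω₂.im := mul_le_mul_of_nonneg_right h2 hi.le
    have h5 : 0 ≤ Y * Ω₂.im := by positivity
    linarith

lemma two_pow_le (hN : 1 ≤ N) : 2 ^ N.primeFactors.card ≤ N := by
  calc 2 ^ N.primeFactors.card = ∏ _p ∈ N.primeFactors, 2 := by rw [prod_const]
    _ ≤ ∏ p ∈ N.primeFactors, p := prod_le_prod' fun p hp => (Nat.prime_of_mem_primeFactors hp).two_le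
    _ ≤ N := Nat.le_of_dvd hN (Nat.prod_primeFactors_dvd N)

lemma condBound_le (hN : 1 ≤ N) : condBound N ≤ 9 * N ^ 7 := by
  unfold condBound
  have h1 : 64 ^ N.primeFactors.card ≤ N ^ 6 := by
    rw [show 64 = 2 ^ 6 by norm_num, ← pow_mul, mul_comm, pow_mul]
    exact Nat.pow_le_pow_left (two_pow_le hN) 6
  calc 9 * 64 ^ N.primeFactors.card * N ≤ 9 * N ^ 6 * N := by gcongr
    _ = 9 * N ^ 7 := by ring

lemma smallEntry_le : smallEntry N ≤ 2 * condBound N := by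
  unfold smallEntry condBound
  nlinarith [Nat.zero_le (64 ^ N.primeFactors.card * N)]

/-- Central values control the small matrices. -/
theorem small_of_values (h : ValueBound condBound) : SmallLowerLeft := by
  obtain ⟨κ, hκ, C, hC, h⟩ := h
  refine ⟨κ + 28, by positivity, 4 * 9 ^ 4 * C, by positivity, ?_⟩
  intro N hN a ha Ω₁ Ω₂ hb p q r s hdet hr hrS m n hmn
  have hf := ha.toIsForm
  have hN2 := two_le hN hf hb
  have hN0 : (0 : ℝ) < N := by exact_mod_cast hN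
  have h₁ := hb.re₁
  have h₂ := hb.im₂
  set g := mk p q r s hdet with hg
  have hHg : Hs a g = (m : ℂ) * Ω₁ + (n : ℂ) * Ω₂ := hmn
  by_cases hr0 : r = 0
  · have h1 : Hs a g = 0 := by
      have h2 := (isCuspHom hf Complex.reLm).zero_of_lower (g := g) hr0
      have h3 := (isCuspHom hf Complex.imLm).zero_of_lower (g := g) hr0
      exact Complex.ext h2 h3
    rw [h1] at hHg
    have h4 := coords hb hHg (Y := 0) (by simp) (by simp)
    rw [mul_zero] at h4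
    have h5 : 0 ≤ 4 * 9 ^ 4 * C * (N : ℝ) ^ (κ + 28) := by positivity
    exact ⟨h4.1.trans h5, h4.2.trans h5⟩
  · set D : ℕ := condBound N with hD
    set X : ℝ := C * (N : ℝ) ^ κ with hX
    have hX0 : 0 ≤ X := by positivity
    obtain ⟨m₀, b₀, hm0, hm1, hm2, hb0, hH⟩ := exists_half hN2 hf (g := g) hr hr0
    have hm3 : m₀ ≤ D := by
      have h1 : (2 * (m₀ : ℤ)) ≤ smallEntry N := hm1.trans hrS
      have h2 : 2 * m₀ ≤ smallEntry N := by exact_mod_cast h1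
      have h3 : smallEntry N ≤ 2 * D := smallEntry_le
      omega
    have hD1 : 1 ≤ D := hm0.trans_le hm3
    have key := Uv_bound hN ha hb (D := D) hX0 (fun d h1 h2 h3 χ h4 L h5 =>
      h N hN a ha Ω₁ Ω₂ hb d h1 h2 h3 χ h4 L h5)
    have k1 := key m₀ hm0 hm3 hm2 b₀ hb0
    have k2 := key 1 one_pos hD1 (Nat.coprime_one_left N) 0 (Nat.coprime_one_right 0)
    rw [show ((0 : ℕ) : ℚ) / ((1 : ℕ) : ℚ) = 0 by norm_num] at k2
    have hDr : (1 : ℝ) ≤ D := by exact_mod_cast hD1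
    have hm3r : (m₀ : ℝ) ≤ D := by exact_mod_cast hm3
    have hsq : √(D : ℝ) ≤ D := by
      rw [Real.sqrt_le_left (by linarith)]
      nlinarith
    have hstep : ∀ Ω : ℝ, 0 < Ω → (m₀ : ℝ) ^ 3 * (√(D : ℝ) * (X * Ω)) +
        ((1 : ℕ) : ℝ) ^ 3 * (√(D : ℝ) * (X * Ω)) ≤ 2 * (D : ℝ) ^ 4 * X * Ω := by
      intro Ω hΩ
      have h1 : (m₀ : ℝ) ^ 3 * (√(D : ℝ) * (X * Ω)) ≤ (D : ℝ) ^ 3 * (D * (X * Ω)) := by
        gcongr
      have h2 : ((1 : ℕ) : ℝ) ^ 3 * (√(D : ℝ) * (X * Ω)) ≤ (D : ℝ) ^ 3 * (D * (X * Ω)) := by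
        gcongr
      calc _ ≤ (D : ℝ) ^ 3 * (D * (X * Ω)) + (D : ℝ) ^ 3 * (D * (X * Ω)) := add_le_add h1 h2
        _ = _ := by ring
    have h6 : |(Hs a g).re| ≤ (2 * (D : ℝ) ^ 4 * X) * Ω₁.re := by
      rw [hH, Complex.sub_re]
      exact ((abs_sub _ _).trans (add_le_add k1.1 k2.1)).trans (hstep _ h₁)
    have h7 : |(Hs a g).im| ≤ (2 * (D : ℝ) ^ 4 * X) * Ω₂.im := by
      rw [hH, Complex.sub_im]
      exact ((abs_sub _ _).trans (add_le_add k1.2 k2.2)).trans (hstep _ h₂)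
    have h8 := coords hb hHg h6 h7
    have h9 : 2 * (2 * (D : ℝ) ^ 4 * X) ≤ 4 * 9 ^ 4 * C * (N : ℝ) ^ (κ + 28) := by
      have h10 : (D : ℝ) ≤ 9 * (N : ℝ) ^ 7 := by exact_mod_cast condBound_le hN
      have h11 : (N : ℝ) ^ (κ + 28) = (N : ℝ) ^ κ * (N : ℝ) ^ 28 := by
        rw [Real.rpow_add hN0]
        congr 1
        exact_mod_cast Real.rpow_natCast (N : ℝ) 28
      rw [h11, hX]
      calc 2 * (2 * (D : ℝ) ^ 4 * (C * (N : ℝ) ^ κ))
          ≤ 2 * (2 * (9 * (N : ℝ) ^ 7) ^ 4 * (C * (N : ℝ) ^ κ)) := by gcongr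
        _ = 4 * 9 ^ 4 * C * ((N : ℝ) ^ κ * (N : ℝ) ^ 28) := by ring
    exact ⟨h8.1.trans h9, h8.2.trans h9⟩

/-- Logarithmic growth of the Shimura map controls the boundary values. -/
lemma boundary_growth (hN : 1 ≤ N) (ha : IsNewform N a) (hb : IsBasis N a Ω₁ Ω₂) {κ C : ℝ}
    (hC : 0 < C)
    (h : ∀ p q r s : ℤ, p * s - q * r = 1 → (N : ℤ) ∣ r → r ≠ 0 →
      CoordBound a Ω₁ Ω₂ p q r s (C * (N : ℝ) ^ κ * (1 + Real.log |(r : ℝ)|)))
    {d : ℕ} (hd : 0 < d) (hdN : d.Coprime N) (b : ℕ) (hbd : b.Coprime d) :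
    |(Uv a ((b : ℚ) / d)).re - (Uv a 0).re| ≤
      4 * C * (N : ℝ) ^ (κ + 1) * (1 + Real.log d) * Ω₁.re ∧
    |(Uv a ((b : ℚ) / d)).im - (Uv a 0).im| ≤
      4 * C * (N : ℝ) ^ (κ + 1) * (1 + Real.log d) * Ω₂.im := by
  have hf := ha.toIsForm
  have hN0 : (0 : ℝ) < N := by exact_mod_cast hN
  have hN1 : (1 : ℝ) ≤ N := by exact_mod_cast hN
  have hd1 : (1 : ℝ) ≤ d := by exact_mod_cast hd
  have hlogd : 0 ≤ Real.log d := Real.log_nonneg hd1
  have h₁ := hb.re₁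
  have h₂ := hb.im₂
  obtain ⟨g, hg, h1, h2, h3⟩ := exists_gamma (b : ℤ) hd (Nat.isCoprime_iff_coprime.2 hbd) hdN hN
  have hd0 : g 1 1 ≠ 0 := by rw [h2]; exact_mod_cast hd.ne'
  have hH := Hs_eq_sub hN hf hg hd0
  rw [h1, h2] at hH
  push_cast at hH
  rw [← Complex.sub_re, ← Complex.sub_im, ← hH]
  by_cases hr0 : g 1 0 = 0
  · have e1 : Hs a g = 0 := by
      have e2 := (isCuspHom hf Complex.reLm).zero_of_lower (g := g) hr0
      have e3 := (isCuspHom hf Complex.imLm).zero_of_lower (g := g) hr0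
      exact Complex.ext e2 e3
    rw [e1]
    simp only [Complex.zero_re, Complex.zero_im, abs_zero]
    constructor <;> positivity
  · obtain ⟨m, n, hmn⟩ := lattice hf hb (z := Hs a g) ⟨g, hg, rfl⟩
    have h4 := h (g 0 0) (g 0 1) (g 1 0) (g 1 1) (det_eq g) hg hr0 m n hmn
    have h5 := re_im_le hb hmn h4.1 h4.2
    have h6 : Real.log |((g 1 0 : ℤ) : ℝ)| ≤ N + Real.log d := by
      have h7 : |((g 1 0 : ℤ) : ℝ)| ≤ N * d := by exact_mod_cast h3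
      have h8 : 0 < |((g 1 0 : ℤ) : ℝ)| := by
        rw [abs_pos]
        exact_mod_cast hr0
      refine (Real.log_le_log h8 h7).trans ?_
      rw [Real.log_mul hN0.ne' (by positivity)]
      have := Real.log_le_self hN0.le
      linarith
    have h9 : 2 * (C * (N : ℝ) ^ κ * (1 + Real.log |((g 1 0 : ℤ) : ℝ)|)) ≤
        4 * C * (N : ℝ) ^ (κ + 1) * (1 + Real.log d) := by
      rw [Real.rpow_add hN0, Real.rpow_one]
      have h10 : 1 + Real.log |((g 1 0 : ℤ) : ℝ)| ≤ 2 * N * (1 + Real.log d) := by nlinarith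
      calc 2 * (C * (N : ℝ) ^ κ * (1 + Real.log |((g 1 0 : ℤ) : ℝ)|))
          ≤ 2 * (C * (N : ℝ) ^ κ * (2 * N * (1 + Real.log d))) := by gcongr
        _ = _ := by ring
    exact ⟨h5.1.trans (mul_le_mul_of_nonneg_right h9 h₁.le),
      h5.2.trans (mul_le_mul_of_nonneg_right h9 h₂.le)⟩

/-- The bound for `L(f, 1)`. -/
lemma untwisted (hN : 1 ≤ N) (ha : IsNewform N a) (hb : IsBasis N a Ω₁ Ω₂) {κ C : ℝ}
    (hC : 0 < C)
    (h : ∀ p q r s : ℤ, p * s - q * r = 1 → (N : ℤ) ∣ r → r ≠ 0 →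
      CoordBound a Ω₁ Ω₂ p q r s (C * (N : ℝ) ^ κ * (1 + Real.log |(r : ℝ)|))) :
    ‖Uv a 0‖ ≤ 24 * C * (N : ℝ) ^ (κ + 3) * Ω₁.re := by
  have hf := ha.toIsForm
  have hN0 : (0 : ℝ) < N := by exact_mod_cast hN
  have hN1 : (1 : ℝ) ≤ N := by exact_mod_cast hN
  have h₁ := hb.re₁
  obtain ⟨ℓ, hℓ, hℓN1⟩ := Nat.exists_prime_and_dvd (n := N + 1) (by omega)
  have hℓN : ¬ ℓ ∣ N := fun hc => by
    have h1 : ℓ ∣ 1 := (Nat.dvd_add_right hc).1 hℓN1
    exact hℓ.one_lt.ne' (Nat.dvd_one.1 h1)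
  have hℓc : ℓ.Coprime N := (Nat.Prime.coprime_iff_not_dvd hℓ).2 hℓN
  have hℓle : ℓ ≤ N + 1 := Nat.le_of_dvd (by omega) hℓN1
  have hℓr : (ℓ : ℝ) ≤ 2 * N := by
    have : (ℓ : ℝ) ≤ N + 1 := by exact_mod_cast hℓle
    linarith
  have hℓ0 : (0 : ℝ) < ℓ := by exact_mod_cast hℓ.pos
  have h1 := Uv_hecke hN ha hℓ hℓN 0 (m := 1) one_pos (Nat.coprime_one_left N)
  have e0 : ((0 : ℕ) : ℚ) / ((1 : ℕ) : ℚ) = 0 := by norm_num
  rw [e0, mul_zero] at h1
  simp only [zero_add] at h1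
  have h2 := congrArg Complex.re h1
  have e1 : ∀ z : ℂ, ((a ℓ : ℂ) * z).re = (a ℓ : ℝ) * z.re := fun z => by simp [Complex.mul_re]
  rw [Complex.add_re, Complex.re_sum, e1] at h2
  set u : ℝ := (Uv a 0).re with hu
  have h3 : ((ℓ : ℝ) + 1 - a ℓ) * u = ∑ j ∈ range ℓ, (u - (Uv a ((j : ℚ) / ℓ)).re) := by
    rw [sum_sub_distrib, sum_const, card_range, nsmul_eq_mul]
    linarith
  set E : ℝ := 4 * C * (N : ℝ) ^ (κ + 1) * (1 + Real.log ℓ) * Ω₁.re with hE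
  have hE0 : 0 ≤ E := by
    have : 0 ≤ Real.log ℓ := Real.log_natCast_nonneg ℓ
    positivity
  have h4 : ∀ j ∈ range ℓ, |u - (Uv a ((j : ℚ) / ℓ)).re| ≤ E := by
    intro j hj
    rcases Nat.eq_zero_or_pos j with rfl | hj0
    · simp only [Nat.cast_zero, zero_div, ← hu, sub_self, abs_zero]
      exact hE0
    · rw [abs_sub_comm]
      exact (boundary_growth hN ha hb hC h hℓ.pos hℓc j
        ((Nat.coprime_of_lt_prime hj0.ne' (mem_range.1 hj) hℓ).symm)).1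
  have h5 : |((ℓ : ℝ) + 1 - a ℓ) * u| ≤ ℓ * E := by
    rw [h3]
    refine (abs_sum_le_sum_abs _ _).trans ((sum_le_sum h4).trans ?_)
    simp
  have h6 : (1 : ℝ) ≤ |(ℓ : ℝ) + 1 - a ℓ| := by
    have h7 : ((ℓ : ℤ) + 1 - a ℓ) ≠ 0 := by
      have := ne_add_one hN ha hℓ hℓN
      intro h8
      apply this
      linarith
    exact_mod_cast Int.one_le_abs h7
  have h7 : |u| ≤ ℓ * E := by
    rw [abs_mul] at h5
    have := abs_nonneg u
    nlinarith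
  have h8 : ‖Uv a 0‖ = |u| := by
    have h9 : Uv a 0 = (u : ℂ) := by
      apply Complex.ext
      · simp [hu]
      · rw [Uv_zero_im hN hf]
        simp
    rw [h9, Complex.norm_real, Real.norm_eq_abs]
  rw [h8]
  refine h7.trans ?_
  have h9 : 1 + Real.log ℓ ≤ 3 * N := by
    have h10 := Real.log_le_self hℓ0.le
    linarith
  have h11 : (N : ℝ) ^ (κ + 3) = (N : ℝ) ^ (κ + 1) * ((N : ℝ) * N) := by
    rw [show κ + 3 = κ + 1 + 1 + 1 by ring, Real.rpow_add hN0 (κ + 1 + 1), Real.rpow_add hN0 (κ + 1),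
      Real.rpow_one]
    ring
  rw [h11, hE]
  calc (ℓ : ℝ) * (4 * C * (N : ℝ) ^ (κ + 1) * (1 + Real.log ℓ) * Ω₁.re)
      ≤ (2 * N) * (4 * C * (N : ℝ) ^ (κ + 1) * (3 * N) * Ω₁.re) := by gcongr
    _ = _ := by ring

/-- Logarithmic growth of the Shimura map controls the central values. -/
theorem values_of_growth (h : LogarithmicGrowth) : ValueGrowth := by
  obtain ⟨κ, hκ, C, hC, h⟩ := h
  refine ⟨κ + 3, by positivity, 24 * C, by positivity, ?_⟩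
  intro N hN a ha Ω₁ Ω₂ hb d hd hdN χ hχ L hL
  have hf := ha.toIsForm
  have : NeZero d := ⟨by omega⟩
  have hN0 : (0 : ℝ) < N := by exact_mod_cast hN
  have hN1 : (1 : ℝ) ≤ N := by exact_mod_cast hN
  have h₁ := hb.re₁
  have h₂ := hb.im₂
  have hg : ∀ p q r s : ℤ, p * s - q * r = 1 → (N : ℤ) ∣ r → r ≠ 0 →
      CoordBound a Ω₁ Ω₂ p q r s (C * (N : ℝ) ^ κ * (1 + Real.log |(r : ℝ)|)) :=
    h N hN a ha Ω₁ Ω₂ hb
  have h1 := (lval hN hf hdN hχ).1 hL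
  have h2 : √(d : ℝ) * ‖L‖ = ‖Sm (Uv a) d χ⁻¹‖ := by
    rw [← h1, norm_mul, norm_gauss (prim_inv hχ)]
  have hd0 : (0 : ℝ) < d := by exact_mod_cast hd
  have hd1 : (1 : ℝ) ≤ d := by exact_mod_cast hd
  have hlogd : 0 ≤ Real.log d := Real.log_nonneg hd1
  have hsq : 0 < √(d : ℝ) := Real.sqrt_pos.2 hd0
  have hsq2 : √(d : ℝ) * √(d : ℝ) = d := Real.mul_self_sqrt hd0.le
  rcases Nat.lt_or_ge 1 d with hd2 | hd2
  · -- nontrivial conductor
    have hχ1 : χ⁻¹ ≠ 1 := by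
      intro hc
      have h3 := prim_inv hχ
      rw [hc, isPrimitive_def, conductor_one] at h3
      omega
    have hsum0 : ∑ b : ZMod d, χ⁻¹ b = 0 := MulChar.sum_eq_zero_of_ne_one hχ1
    have hpow : (N : ℝ) ^ (κ + 1) ≤ (N : ℝ) ^ (κ + 3) :=
      Real.rpow_le_rpow_of_exponent_le hN1 (by linarith)
    have main : ∀ (V : ℚ → ℂ) (E : ℝ), 0 ≤ E →
        (∀ b : ℕ, b.Coprime d → ‖V ((b : ℚ) / d) - V 0‖ ≤ E) → ‖Sm V d χ⁻¹‖ ≤ d * E := by
      intro V E hE hV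
      have h3 : Sm V d χ⁻¹ = ∑ b : ZMod d, χ⁻¹ b * (V ((b.val : ℚ) / d) - V 0) := by
        unfold Sm
        simp_rw [mul_sub]
        rw [sum_sub_distrib, ← sum_mul, hsum0, zero_mul, sub_zero]
      rw [h3]
      refine (norm_sum_le _ _).trans ?_
      have h4 : ∀ b ∈ (univ : Finset (ZMod d)), ‖χ⁻¹ b * (V ((b.val : ℚ) / d) - V 0)‖ ≤ E := by
        intro b _
        by_cases hbu : IsUnit b
        · have h5 : b.val.Coprime d := by
            rw [← ZMod.isUnit_iff_coprime, ZMod.natCast_zmod_val]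
            exact hbu
          rw [norm_mul]
          calc ‖χ⁻¹ b‖ * ‖V ((b.val : ℚ) / d) - V 0‖ ≤ 1 * E :=
                mul_le_mul (χ⁻¹.norm_le_one b) (hV _ h5) (norm_nonneg _) zero_le_one
            _ = E := one_mul E
        · rw [MulChar.map_nonunit _ hbu, zero_mul, norm_zero]
          exact hE
      refine (sum_le_sum h4).trans ?_
      rw [sum_const, card_univ, ZMod.card, nsmul_eq_mul]
    have fin : ∀ Ω : ℝ, 0 < Ω → √(d : ℝ) * ‖L‖ ≤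
        d * (4 * C * (N : ℝ) ^ (κ + 1) * (1 + Real.log d) * Ω) →
        ‖L‖ ≤ 24 * C * (N : ℝ) ^ (κ + 3) * (√(d : ℝ) * (1 + Real.log d)) * Ω := by
      intro Ω hΩ h3
      apply le_of_mul_le_mul_left _ hsq
      refine h3.trans ?_
      calc (d : ℝ) * (4 * C * (N : ℝ) ^ (κ + 1) * (1 + Real.log d) * Ω)
          ≤ d * (24 * C * (N : ℝ) ^ (κ + 3) * (1 + Real.log d) * Ω) := by
            gcongr
            norm_num
        _ = √(d : ℝ) * √(d : ℝ) * (24 * C * (N : ℝ) ^ (κ + 3) * (1 + Real.log d) * Ω) := by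
            rw [hsq2]
        _ = _ := by ring
    constructor
    · intro hc
      apply fin _ h₁
      rw [h2, ← (Sm_even hN hf hdN χ⁻¹ (even_inv hc)).1]
      refine main (Rv a) _ (by positivity) (fun b hbd => ?_)
      unfold Rv
      rw [← Complex.ofReal_sub, Complex.norm_real, Real.norm_eq_abs]
      exact (boundary_growth hN ha hb hC hg (by omega) hdN b hbd).1
    · intro hc
      apply fin _ h₂
      rw [h2, ← (Sm_odd hN hf hdN χ⁻¹ (odd_inv hc)).2]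
      refine main (Iv a) _ (by positivity) (fun b hbd => ?_)
      unfold Iv
      rw [← Complex.ofReal_sub, Complex.norm_real, Real.norm_eq_abs]
      exact (boundary_growth hN ha hb hC hg (by omega) hdN b hbd).2
  · -- trivial conductor
    obtain rfl : d = 1 := by omega
    have h3 : Sm (Uv a) 1 χ⁻¹ = Uv a 0 := by
      unfold Sm
      rw [Fintype.sum_eq_single (1 : ZMod 1) (fun b hb => (hb (Subsingleton.elim _ _)).elim),
        map_one, one_mul]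
      have h4 : (1 : ZMod 1).val = 0 := rfl
      rw [h4]
      simp
    rw [h3] at h2
    simp only [Nat.cast_one, Real.sqrt_one, one_mul, Real.log_one, add_zero, mul_one] at h2 ⊢
    refine ⟨fun _ => ?_, fun hc => ?_⟩
    · rw [h2]
      exact untwisted hN ha hb hC hg
    · exfalso
      have h4 : χ (-1) = -1 := hc
      have h5 : (-1 : ZMod 1) = 1 := Subsingleton.elim _ _
      rw [h5, map_one] at h4
      norm_num at h4

theorem bound_of_growth (h : ValueGrowth) (A : ℕ) : ValueBound (fun N => N ^ A) := by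
  obtain ⟨κ, hκ, C, hC, h⟩ := h
  refine ⟨κ + (2 * A : ℕ), by positivity, 2 * C, by positivity, ?_⟩
  intro N hN a ha Ω₁ Ω₂ hb d hd hdA hdN χ hχ L hL
  have h1 := h N hN a ha Ω₁ Ω₂ hb d hd hdN χ hχ L hL
  have hN0 : (0 : ℝ) < N := by exact_mod_cast hN
  have hd0 : (0 : ℝ) < d := by exact_mod_cast hd
  have hd1 : (1 : ℝ) ≤ d := by exact_mod_cast hd
  have h₁ := hb.re₁
  have h₂ := hb.im₂
  have hfac : √(d : ℝ) * (1 + Real.log d) ≤ 2 * (N : ℝ) ^ (2 * A) := by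
    have h2 : √(d : ℝ) ≤ d := by
      rw [Real.sqrt_le_left (by linarith)]
      nlinarith
    have h3 : Real.log d ≤ d := Real.log_le_self hd0.le
    have h3' : 0 ≤ Real.log d := Real.log_nonneg hd1
    have h4 : (d : ℝ) ≤ (N : ℝ) ^ A := by exact_mod_cast hdA
    calc √(d : ℝ) * (1 + Real.log d) ≤ d * (d + d) := by gcongr
      _ ≤ (N : ℝ) ^ A * ((N : ℝ) ^ A + (N : ℝ) ^ A) := by gcongr
      _ = _ := by rw [mul_comm 2 A, pow_mul]; ring
  have hmain : ∀ Ω : ℝ, 0 < Ω → C * (N : ℝ) ^ κ * (√(d : ℝ) * (1 + Real.log d)) * Ω ≤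
      2 * C * (N : ℝ) ^ (κ + (2 * A : ℕ)) * Ω := by
    intro Ω hΩ
    rw [Real.rpow_add hN0, Real.rpow_natCast]
    calc C * (N : ℝ) ^ κ * (√(d : ℝ) * (1 + Real.log d)) * Ω
        ≤ C * (N : ℝ) ^ κ * (2 * (N : ℝ) ^ (2 * A)) * Ω := by gcongr
      _ = _ := by ring
  exact ⟨fun hc => (h1.1 hc).trans (hmain _ h₁), fun hc => (h1.2 hc).trans (hmain _ h₂)⟩

theorem bound_mono {D D' : ℕ → ℕ} (h : ValueBound D') (hD : ∀ N : ℕ, 2 ≤ N → D N ≤ D' N) :
    ValueBound D := by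
  obtain ⟨κ, hκ, C, hC, h⟩ := h
  refine ⟨κ, hκ, C, hC, ?_⟩
  intro N hN a ha Ω₁ Ω₂ hb d hd hdD hdN
  have hN2 := two_le hN ha.toIsForm hb
  exact h N hN a ha Ω₁ Ω₂ hb d hd (hdD.trans (hD N hN2)) hdN

theorem main : List.TFAE [EntriesAtMost 2, ValueBound condBound,
    ∀ A : ℕ, ValueBound (fun N => N ^ A), ValueGrowth] := by
  have h0 := shimura_tfae_small
  tfae_have 1 → 4 := fun h => values_of_growth ((h0.out 0 3).1 h)
  tfae_have 4 → 3 := fun h A => bound_of_growth h A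
  tfae_have 3 → 2 := fun h => bound_mono (h 11) (fun N hN => by
    refine (condBound_le (by omega)).trans ?_
    calc 9 * N ^ 7 ≤ 2 ^ 4 * N ^ 7 := by gcongr; norm_num
      _ ≤ N ^ 4 * N ^ 7 := by gcongr
      _ = N ^ 11 := by ring)
  tfae_have 2 → 1 := fun h => (h0.out 1 0).1 (small_of_values h)
  tfae_finish

end Pool.Agent.K4H67.TV
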