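import Pool.Agent.K4H67.TV.Hecke
import Pool.Agent.K4H67.TV.Char
import Pool.Agent.K4H67.TV.Gauss

/-!
# Boundary values, their real and imaginary parts, and twisted central values
-/

set_option autoImplicit false

open Complex Filter Topology Matrix.SpecialLinearGroup MatrixGroups Finset DirichletCharacter

namespace Pool.Agent.K4H67.TV

open Pool.Agent.TH133.SH

variable {N : ℕ} {a : ℕ → ℤ}

/-- The boundary value of `F` at the rational number `x` (if it exists). -/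
noncomputable def Uv (a : ℕ → ℤ) (x : ℚ) : ℂ :=
  limUnder (𝓝[>] (0 : ℝ)) (fun y : ℝ => Fser a ((x : ℂ) + (y : ℂ) * Complex.I))

lemma HasVal.eq {x : ℚ} {u : ℂ} (h : HasVal a x u) : Uv a x = u := Tendsto.limUnder_eq h

lemma HasVal.self {x : ℚ} {u : ℂ} (h : HasVal a x u) : HasVal a x (Uv a x) := by rwa [h.eq]

lemma Uv_per (x : ℚ) : Uv a (x + 1) = Uv a x := by
  unfold Uv
  congr 1
  funext y
  rw [← Fser_add_int ((x : ℂ) + (y : ℂ) * Complex.I) 1]
  congr 1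
  push_cast
  ring

/-- An element of `Γ₀(N)` with given second column. -/
lemma exists_gamma (b : ℤ) {d : ℕ} (hd : 0 < d) (hbd : IsCoprime b (d : ℤ)) (hdN : d.Coprime N)
    (hN : 1 ≤ N) : ∃ g : SL(2, ℤ), InG N g ∧ g 0 1 = b ∧ g 1 1 = d ∧ |g 1 0| ≤ N * d := by
  have : NeZero d := ⟨hd.ne'⟩
  have hN0 : (0 : ℤ) < N := by exact_mod_cast hN
  have h1 : IsCoprime ((N : ℤ) * b) (d : ℤ) :=
    IsCoprime.mul_left (Nat.isCoprime_iff_coprime.2 hdN.symm) hbd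
  set u : (ZMod d)ˣ := ZMod.unitOfIsCoprime ((N : ℤ) * b) h1 with hu
  have hu' : (u : ZMod d) = (((N : ℤ) * b : ℤ) : ZMod d) := ZMod.coe_unitOfIsCoprime _ h1
  set c₀ : ℕ := (-((u⁻¹ : (ZMod d)ˣ) : ZMod d)).val with hc₀
  have hc1 : c₀ < d := ZMod.val_lt _
  have hc2 : ((c₀ : ℕ) : ZMod d) = -((u⁻¹ : (ZMod d)ˣ) : ZMod d) := ZMod.natCast_zmod_val _
  have h2 : ((1 + b * ((N : ℤ) * c₀) : ℤ) : ZMod d) = 0 := by
    have h3 : ((b * ((N : ℤ) * c₀) : ℤ) : ZMod d) = (u : ZMod d) * (c₀ : ZMod d) := by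
      rw [hu']
      push_cast
      ring
    have h4 : ((1 + b * ((N : ℤ) * c₀) : ℤ) : ZMod d) = 1 + ((b * ((N : ℤ) * c₀) : ℤ) : ZMod d) := by
      push_cast
      ring
    rw [h4, h3, hc2, mul_neg, Units.mul_inv]
    ring
  obtain ⟨p, hp⟩ := (ZMod.intCast_zmod_eq_zero_iff_dvd _ _).1 h2
  refine ⟨mk p b ((N : ℤ) * c₀) d (by linear_combination -hp), ?_, rfl, rfl, ?_⟩
  · change (N : ℤ) ∣ (N : ℤ) * c₀
    exact dvd_mul_right _ _
  · change |(N : ℤ) * c₀| ≤ N * d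
    rw [abs_of_nonneg (by positivity)]
    have : (c₀ : ℤ) ≤ d := by exact_mod_cast hc1.le
    nlinarith

/-- The boundary values exist at the cusps with denominator prime to the level. -/
lemma hasVal_all (hN : 1 ≤ N) (ha : IsForm N a) (b : ℤ) {m : ℕ} (hm : 0 < m) (hmN : m.Coprime N) :
    HasVal a ((b : ℚ) / m) (Uv a ((b : ℚ) / m)) := by
  obtain ⟨u, -, hu⟩ := hasVal_zero hN ha
  set x : ℚ := (b : ℚ) / m with hx
  have hden : x.den ∣ m := by
    have h1 : ((x.den : ℕ) : ℤ) ∣ (m : ℤ) := by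
      have := Rat.den_dvd b (m : ℤ)
      rw [Rat.divInt_eq_div] at this
      push_cast at this
      exact this
    exact_mod_cast h1
  have hc : x.den.Coprime N := Nat.Coprime.coprime_dvd_left hden hmN
  have hcop : IsCoprime x.num (x.den : ℤ) := by
    rw [Int.isCoprime_iff_gcd_eq_one]
    exact x.reduced
  obtain ⟨g, hg, h1, h2, -⟩ := exists_gamma x.num x.den_pos hcop hc hN
  have h3 := hasVal_cusp ha hu hg (x := x) (by
    rw [h2]
    exact_mod_cast x.den_pos.ne') (by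
    rw [h1, h2]
    push_cast
    exact (Rat.num_div_den x).symm)
  exact h3.self

lemma Uv_zero_eq (hN : 1 ≤ N) (ha : IsForm N a) : ∃ u : ℂ, u = Uv a 0 ∧
    Tendsto (fun Y : ℝ => Fser a (mob 0 (-1) 1 0 ((Y : ℂ) * Complex.I))) atTop (𝓝 u) := by
  obtain ⟨u, h1, hu⟩ := hasVal_zero hN ha
  exact ⟨u, h1.eq.symm, hu⟩

/-- `H(γ)` as a difference of boundary values. -/
lemma Hs_eq_sub (hN : 1 ≤ N) (ha : IsForm N a) {g : SL(2, ℤ)} (hg : InG N g) (hd : g 1 1 ≠ 0) :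
    Hs a g = Uv a ((g 0 1 : ℚ) / (g 1 1 : ℚ)) - Uv a 0 := by
  obtain ⟨u, hu0, hu⟩ := Uv_zero_eq hN ha
  have h3 := (hasVal_cusp ha hu hg hd rfl).eq
  rw [h3, hu0]
  ring

lemma Uv_neg (hN : 1 ≤ N) (ha : IsForm N a) (b : ℤ) {m : ℕ} (hm : 0 < m) (hmN : m.Coprime N) :
    Uv a (-((b : ℚ) / m)) = starRingEnd ℂ (Uv a ((b : ℚ) / m)) :=
  (hasVal_all hN ha b hm hmN).conj.eq

lemma Uv_zero_im (hN : 1 ≤ N) (ha : IsForm N a) : (Uv a 0).im = 0 := by
  have h1 := Uv_neg hN ha 0 (m := 1) one_pos (Nat.coprime_one_left N)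
  simp only [Int.cast_zero, zero_div, neg_zero] at h1
  have h2 := congrArg Complex.im h1
  rw [Complex.conj_im] at h2
  linarith

/-- The Hecke relation for the boundary values. -/
lemma Uv_hecke (hN : 1 ≤ N) (ha : IsNewform N a) {ℓ : ℕ} (hℓ : ℓ.Prime) (hℓN : ¬ ℓ ∣ N) (b : ℕ)
    {m : ℕ} (hm : 0 < m) (hmN : m.Coprime N) :
    ∑ j ∈ range ℓ, Uv a (((b : ℚ) / m + j) / ℓ) + Uv a (ℓ * ((b : ℚ) / m)) =
      (a ℓ : ℂ) * Uv a ((b : ℚ) / m) := by
  have hf := ha.toIsForm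
  have hℓc : ℓ.Coprime N := (Nat.Prime.coprime_iff_not_dvd hℓ).2 hℓN
  have hℓq : (ℓ : ℚ) ≠ 0 := by exact_mod_cast hℓ.pos.ne'
  have hmq : (m : ℚ) ≠ 0 := by exact_mod_cast hm.ne'
  apply hecke_val ha hℓ hℓN
  · have := hasVal_all hN hf (b : ℤ) hm hmN
    push_cast at this
    exact this
  · have := hasVal_all hN hf ((ℓ * b : ℕ) : ℤ) hm hmN
    have e : (((ℓ * b : ℕ) : ℤ) : ℚ) / m = ℓ * ((b : ℚ) / m) := by
      push_cast
      ring
    rwa [e] at this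
  · intro j _
    have := hasVal_all hN hf ((b + m * j : ℕ) : ℤ) (Nat.mul_pos hm hℓ.pos)
      (Nat.Coprime.mul_left hmN hℓc)
    have e : (((b + m * j : ℕ) : ℤ) : ℚ) / ((m * ℓ : ℕ) : ℚ) = ((b : ℚ) / m + j) / ℓ := by
      push_cast
      field_simp
    rwa [e] at this

/-- The real parts of the boundary values. -/
noncomputable def Rv (a : ℕ → ℤ) (x : ℚ) : ℂ := ((Uv a x).re : ℂ)

/-- The imaginary parts of the boundary values. -/
noncomputable def Iv (a : ℕ → ℤ) (x : ℚ) : ℂ := ((Uv a x).im : ℂ)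

lemma heckeR (hN : 1 ≤ N) (ha : IsNewform N a)
    (hb : ∀ ℓ : ℕ, ℓ.Prime → ¬ ℓ ∣ N → |(a ℓ : ℝ)| ≤ ℓ + 1) :
    HeckeFn N (fun ℓ => (a ℓ : ℂ)) (Rv a) where
  per := fun x => by unfold Rv; rw [Uv_per]
  hecke := fun ℓ hℓ hℓN b m hm hmN => by
    have h1 := congrArg Complex.re (Uv_hecke hN ha hℓ hℓN b hm hmN)
    unfold Rv
    have h2 : ∀ z : ℂ, ((a ℓ : ℂ) * z).re = (a ℓ : ℝ) * z.re := fun z => by
      simp [Complex.mul_re]
    rw [Complex.add_re, Complex.re_sum, h2] at h1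
    have h3 := congrArg (fun t : ℝ => (t : ℂ)) h1
    push_cast at h3
    push_cast
    exact h3
  bound := fun ℓ hℓ hℓN => by
    rw [Complex.norm_intCast]
    exact hb ℓ hℓ hℓN

lemma heckeI (hN : 1 ≤ N) (ha : IsNewform N a)
    (hb : ∀ ℓ : ℕ, ℓ.Prime → ¬ ℓ ∣ N → |(a ℓ : ℝ)| ≤ ℓ + 1) :
    HeckeFn N (fun ℓ => (a ℓ : ℂ)) (Iv a) where
  per := fun x => by unfold Iv; rw [Uv_per]
  hecke := fun ℓ hℓ hℓN b m hm hmN => by
    have h1 := congrArg Complex.im (Uv_hecke hN ha hℓ hℓN b hm hmN)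
    unfold Iv
    have h2 : ∀ z : ℂ, ((a ℓ : ℂ) * z).im = (a ℓ : ℝ) * z.im := fun z => by
      simp [Complex.mul_im]
    rw [Complex.add_im, Complex.im_sum, h2] at h1
    have h3 := congrArg (fun t : ℝ => (t : ℂ)) h1
    push_cast at h3
    push_cast
    exact h3
  bound := fun ℓ hℓ hℓN => by
    rw [Complex.norm_intCast]
    exact hb ℓ hℓ hℓN

section parity

variable (hN : 1 ≤ N) (ha : IsForm N a) {d : ℕ} [NeZero d] (hdN : d.Coprime N)
  (χ : DirichletCharacter ℂ d)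

include hN ha hdN

lemma Uv_neg_zmod (b : ZMod d) : Uv a (((-b).val : ℚ) / d) =
    starRingEnd ℂ (Uv a ((b.val : ℚ) / d)) := by
  have hd : (d : ℚ) ≠ 0 := by exact_mod_cast NeZero.ne d
  have h1 := Uv_neg hN ha (b.val : ℤ) (NeZero.pos d) hdN
  push_cast at h1
  rw [← h1]
  by_cases hb : b = 0
  · rw [hb]
    simp
  · rw [ZMod.neg_val, if_neg hb, Nat.cast_sub (ZMod.val_lt b).le, sub_div, div_self hd,
      ← Uv_per (-(((b.val : ℕ) : ℚ) / d))]
    congr 1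
    ring

lemma Sm_conj : Sm (Uv a) d χ = χ (-1) * ∑ b : ZMod d, χ b * starRingEnd ℂ (Uv a ((b.val : ℚ) / d)) := by
  unfold Sm
  rw [← Equiv.sum_comp (Equiv.neg (ZMod d)) (fun b => χ b * Uv a ((b.val : ℚ) / d)), mul_sum]
  refine sum_congr rfl fun b _ => ?_
  rw [Equiv.neg_apply, Uv_neg_zmod hN ha hdN, ← mul_assoc, ← map_mul, neg_one_mul]

omit hN ha hdN in
lemma Sm_split : Sm (Uv a) d χ = Sm (Rv a) d χ + Complex.I * Sm (Iv a) d χ := by
  unfold Sm Rv Iv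
  rw [mul_sum, ← sum_add_distrib]
  refine sum_congr rfl fun b _ => ?_
  conv_lhs => rw [← Complex.re_add_im (Uv a ((b.val : ℚ) / d))]
  ring

omit hN ha hdN in
lemma Sm_split' : ∑ b : ZMod d, χ b * starRingEnd ℂ (Uv a ((b.val : ℚ) / d)) =
    Sm (Rv a) d χ - Complex.I * Sm (Iv a) d χ := by
  unfold Sm Rv Iv
  rw [mul_sum, ← sum_sub_distrib]
  refine sum_congr rfl fun b _ => ?_
  conv_lhs => rw [← Complex.re_add_im (Uv a ((b.val : ℚ) / d))]
  rw [map_add, map_mul, Complex.conj_I, Complex.conj_ofReal, Complex.conj_ofReal]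
  ring

lemma Sm_even (hχ : χ.Even) : Sm (Rv a) d χ = Sm (Uv a) d χ ∧ Sm (Iv a) d χ = 0 := by
  have h1 := Sm_conj hN ha hdN χ
  rw [hχ, one_mul, Sm_split', Sm_split] at h1
  have h2 : Complex.I * Sm (Iv a) d χ = 0 := by linear_combination h1 / 2
  have h3 := (mul_eq_zero.1 h2).resolve_left Complex.I_ne_zero
  refine ⟨?_, h3⟩
  rw [Sm_split, h3, mul_zero, add_zero]

lemma Sm_odd (hχ : χ.Odd) : Sm (Rv a) d χ = 0 ∧ ‖Sm (Iv a) d χ‖ = ‖Sm (Uv a) d χ‖ := by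
  have h1 := Sm_conj hN ha hdN χ
  rw [hχ, Sm_split', Sm_split] at h1
  have h2 : Sm (Rv a) d χ = 0 := by linear_combination h1 / 2
  refine ⟨h2, ?_⟩
  rw [Sm_split, h2, zero_add, norm_mul, Complex.norm_I, one_mul]

end parity

/-- `L` is the twisted central value `L(f, χ, 1) = ∑ χ(k) a(k) / k` (Abel summation). -/
def HasLVal (a : ℕ → ℤ) {d : ℕ} (χ : DirichletCharacter ℂ d) (L : ℂ) : Prop :=
  Tendsto (fun y : ℝ => ∑' k : ℕ, χ (k : ZMod d) * ((a k : ℂ) / (k : ℂ)) *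
    (Real.exp (-(2 * Real.pi * k * y)) : ℂ)) (𝓝[>] 0) (𝓝 L)

section lval

variable (hN : 1 ≤ N) (ha : IsForm N a) {d : ℕ} [NeZero d] (hdN : d.Coprime N)
  {χ : DirichletCharacter ℂ d}

lemma stdAdd_nat (b : ZMod d) (k : ℕ) :
    (ZMod.stdAddChar ((k : ZMod d) * b) : ℂ) = ee k ((b.val : ℂ) / d) := by
  have h1 : ((k : ZMod d) * b) = (((k * b.val : ℕ) : ℤ) : ZMod d) := by
    push_cast
    rw [ZMod.natCast_zmod_val]
  rw [h1, ZMod.stdAddChar_coe]
  unfold ee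
  congr 1
  push_cast
  ring

include ha in
/-- The series twisted by `χ` as a combination of values of `F`. -/
lemma twisted_series (hχ : χ.IsPrimitive) {y : ℝ} (hy : 0 < y) :
    ∑ b : ZMod d, χ⁻¹ b * Fser a (((((b.val : ℕ) : ℚ) / d : ℚ) : ℂ) + (y : ℂ) * Complex.I) =
      gaussSum χ⁻¹ (ZMod.stdAddChar : AddChar (ZMod d) ℂ) *
        ∑' k : ℕ, χ (k : ZMod d) * ((a k : ℂ) / (k : ℂ)) *
          (Real.exp (-(2 * Real.pi * k * y)) : ℂ) := by
  have hinv : (χ⁻¹).IsPrimitive := by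
    rw [isPrimitive_def, conductor_inv]
    exact hχ
  have hy' : 0 < ((y : ℂ) * Complex.I).im := by simpa using hy
  have hsum := summable_F ha hy'
  have hee : ∀ k : ℕ, ee k ((y : ℂ) * Complex.I) = (Real.exp (-(2 * Real.pi * k * y)) : ℂ) := by
    intro k
    unfold ee
    rw [Complex.ofReal_exp]
    congr 1
    push_cast
    linear_combination (2 * (Real.pi : ℂ) * k * y) * Complex.I_mul_I
  have h1 : ∀ b ∈ (univ : Finset (ZMod d)), χ⁻¹ b *
      Fser a (((((b.val : ℕ) : ℚ) / d : ℚ) : ℂ) + (y : ℂ) * Complex.I) =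
      ∑' k : ℕ, (a k : ℂ) / (k : ℂ) * ee k ((y : ℂ) * Complex.I) *
        (χ⁻¹ b * ZMod.stdAddChar ((k : ZMod d) * b)) := by
    intro b _
    rw [Fser_eq, ← tsum_mul_left]
    refine tsum_congr fun k => ?_
    rw [stdAdd_nat]
    have : ee k (((((b.val : ℕ) : ℚ) / d : ℚ) : ℂ) + (y : ℂ) * Complex.I) =
        ee k ((b.val : ℂ) / d) * ee k ((y : ℂ) * Complex.I) := by
      unfold ee
      rw [← Complex.exp_add]
      congr 1
      push_cast
      ring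
    rw [this]
    ring
  rw [sum_congr rfl h1, ← Summable.tsum_finsetSum, ← tsum_mul_left]
  · refine tsum_congr fun k => ?_
    rw [← mul_sum]
    have h2 : ∑ b : ZMod d, χ⁻¹ b * (ZMod.stdAddChar ((k : ZMod d) * b) : ℂ) =
        χ (k : ZMod d) * gaussSum χ⁻¹ (ZMod.stdAddChar : AddChar (ZMod d) ℂ) := by
      have h3 := gaussSum_mulShift_of_isPrimitive
        (ZMod.stdAddChar : AddChar (ZMod d) ℂ) hinv (k : ZMod d)
      rw [inv_inv] at h3
      rw [← h3]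
      rfl
    rw [h2, hee]
    ring
  · intro b _
    refine Summable.of_norm_bounded hsum.norm (fun k => ?_)
    rw [norm_mul]
    apply mul_le_of_le_one_right (norm_nonneg _)
    rw [norm_mul]
    refine mul_le_one₀ (χ⁻¹.norm_le_one _) (norm_nonneg _) ?_
    exact le_of_eq (AddChar.norm_apply _ _)

include hN ha hdN in
/-- The twisted central value exists, and its product with the Gauss sum is the sum of the boundary
values. -/
lemma lval (hχ : χ.IsPrimitive) {L : ℂ} : HasLVal a χ L ↔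
    gaussSum χ⁻¹ (ZMod.stdAddChar : AddChar (ZMod d) ℂ) * L = Sm (Uv a) d χ⁻¹ := by
  have hinv : (χ⁻¹).IsPrimitive := by
    rw [isPrimitive_def, conductor_inv]
    exact hχ
  have hg : gaussSum χ⁻¹ (ZMod.stdAddChar : AddChar (ZMod d) ℂ) ≠ 0 := by
    intro h0
    have := Pool.Agent.K4H67.TV.norm_sq_gaussSum hinv
    rw [h0, norm_zero] at this
    have hd : (d : ℝ) ≠ 0 := by exact_mod_cast NeZero.ne d
    apply hd
    rw [← this]
    norm_num
  have h1 : Tendsto (fun y : ℝ => ∑ b : ZMod d, χ⁻¹ b *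
      Fser a (((((b.val : ℕ) : ℚ) / d : ℚ) : ℂ) + (y : ℂ) * Complex.I)) (𝓝[>] 0)
      (𝓝 (Sm (Uv a) d χ⁻¹)) := by
    unfold Sm
    refine tendsto_finsetSum _ (fun b _ => ?_)
    have := hasVal_all hN ha (b.val : ℤ) (NeZero.pos d) hdN
    push_cast at this
    exact Tendsto.const_mul _ this
  have h2 : Tendsto (fun y : ℝ => ∑' k : ℕ, χ (k : ZMod d) * ((a k : ℂ) / (k : ℂ)) *
      (Real.exp (-(2 * Real.pi * k * y)) : ℂ)) (𝓝[>] 0)
      (𝓝 ((gaussSum χ⁻¹ (ZMod.stdAddChar : AddChar (ZMod d) ℂ))⁻¹ * Sm (Uv a) d χ⁻¹)) := by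
    refine (h1.const_mul _).congr' ?_
    filter_upwards [self_mem_nhdsWithin] with y hy
    rw [twisted_series ha hχ hy, ← mul_assoc, inv_mul_cancel₀ hg, one_mul]
  constructor
  · intro h
    rw [tendsto_nhds_unique h h2, ← mul_assoc, mul_inv_cancel₀ hg, one_mul]
  · intro h
    have : L = (gaussSum χ⁻¹ (ZMod.stdAddChar : AddChar (ZMod d) ℂ))⁻¹ * Sm (Uv a) d χ⁻¹ := by
      rw [← h, ← mul_assoc, inv_mul_cancel₀ hg, one_mul]
    rw [this]
    exact h2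

end lval

end Pool.Agent.K4H67.TV
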